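import Pool.Agent.K6.H24.CU.Stm

set_option autoImplicit false

namespace Pool.Agent.K6.H24.CU

open Set

namespace ADC

lemma lam_comb {V : Type} (B : Finset (Finset V)) (i : V) (a b : ℝ) (y z : {H // H ∈ B} → ℝ) :
    lam B i (a • y + b • z) = a * lam B i y + b * lam B i z := by
  classical
  unfold lam
  rw [Finset.mul_sum, Finset.mul_sum, ← Finset.sum_add_distrib]
  refine Finset.sum_congr rfl fun H _ => ?_
  by_cases h : i ∈ H.1
  · simp [h]
  · simp [h]

lemma norm_comb {F : Type} [NormedAddCommGroup F] [NormedSpace ℝ F] {a b : ℝ} (ha : 0 ≤ a)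
    (hb : 0 ≤ b) {x y k l : F} {r s : ℝ} (h1 : ‖x - k‖ ≤ r) (h2 : ‖y - l‖ ≤ s) :
    ‖(a • x + b • y) - (a • k + b • l)‖ ≤ a * r + b * s := by
  have e : (a • x + b • y) - (a • k + b • l) = a • (x - k) + b • (y - l) := by
    rw [smul_sub, smul_sub]; abel
  rw [e]
  refine (norm_add_le _ _).trans ?_
  rw [norm_smul, norm_smul, Real.norm_of_nonneg ha, Real.norm_of_nonneg hb]
  gcongr

end ADC

open ADC in
theorem P_ADC : S_ADC := by
  intro V F _ _ _ K v w B c ε hε hK hU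
  have hT : Convex ℝ (Tot K v B c) := by
    rintro ⟨x, s, y⟩ ⟨h1, h2, ⟨k, hk, h3⟩, h4⟩ ⟨x', s', y'⟩ ⟨h1', h2', ⟨k', hk', h3'⟩, h4'⟩ a b ha hb hab
    simp only at h1 h2 h3 h4 h1' h2' h3' h4'
    refine ⟨?_, ?_, ⟨a • k + b • k', hK v hk hk' ha hb hab, ?_⟩, ?_⟩
    · exact hU h1 h1' ha hb hab
    · change 0 ≤ a * s + b * s'
      positivity
    · change ‖(a • x + b • x') - (a • k + b • k')‖ ≤ c - (a * s + b * s')
      have := norm_comb ha hb h3 h3'
      have e : a * (c - s) + b * (c - s') = c - (a * s + b * s') := by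
        linear_combination c * hab
      linarith
    · exact convex_stdSimplex ℝ _ h4 h4' ha hb hab
  refine ⟨hT, fun i => ?_⟩
  unfold Kn
  split_ifs with h1 h2
  · rintro p ⟨hp, hp'⟩ q ⟨hq, hq'⟩ a b ha hb hab
    refine ⟨hT hp hq ha hb hab, ?_⟩
    change c ≤ a * p.2.1 + b * q.2.1
    have : c = a * c + b * c := by rw [← add_mul, hab, one_mul]
    nlinarith
  · rintro p ⟨hp, k, hk, hp'⟩ q ⟨hq, l, hl, hq'⟩ a b ha hb hab
    refine ⟨hT hp hq ha hb hab, a • k + b • l, hK v hk hl ha hb hab, ?_⟩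
    have := norm_comb ha hb hp' hq'
    have e : a * ε + b * ε = ε := by rw [← add_mul, hab, one_mul]
    rw [e] at this
    exact this
  · rintro p ⟨hp, hp1, hp'⟩ q ⟨hq, hq1, hq'⟩ a b ha hb hab
    refine ⟨hT hp hq ha hb hab, hK i hp1 hq1 ha hb hab, ?_⟩
    change a * p.2.1 + b * q.2.1 ≤ c - ε * lam B i (a • p.2.2 + b • q.2.2)
    rw [lam_comb]
    have : c = a * c + b * c := by rw [← add_mul, hab, one_mul]
    nlinarith

end Pool.Agent.K6.H24.CU
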