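import Pool.Agent.K6.H24.CU.Stm

namespace Pool.Agent.K6.H24.CU

open Set

theorem ADE_min {V : Type} (P : Finset V → ℝ → Prop) (hP : ∀ s a b, b ≤ a → P s a → P s b)
    (Y : Finset (Finset V)) :
    (∀ s ∈ Y, ∃ ε : ℝ, 0 < ε ∧ P s ε) → ∃ ε : ℝ, 0 < ε ∧ ∀ s ∈ Y, P s ε := by
  classical
  induction Y using Finset.induction_on with
  | empty => intro _; exact ⟨1, one_pos, by simp⟩
  | insert s Y hs ih =>
    intro h
    obtain ⟨e₁, he₁, h₁⟩ := h s (Finset.mem_insert_self _ _)
    obtain ⟨e₂, he₂, h₂⟩ := ih fun t ht => h t (Finset.mem_insert_of_mem ht)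
    refine ⟨min e₁ e₂, lt_min he₁ he₂, ?_⟩
    intro t ht
    rcases Finset.mem_insert.1 ht with rfl | ht
    · exact hP _ _ _ (min_le_left _ _) h₁
    · exact hP _ _ _ (min_le_right _ _) (h₂ t ht)

theorem P_ADE : S_ADE := by
  intro V F _ _ _ X K v hv hK hX
  classical
  -- bounded
  obtain ⟨R, hR⟩ : ∃ R : ℝ, ∀ i, ∀ x ∈ K i, ‖x‖ ≤ R := by
    have hb : Bornology.IsBounded (⋃ i ∈ X.biUnion id, K i) :=
      (Bornology.isBounded_biUnion_finset (X.biUnion id)).2 fun i _ => (hK i).isBounded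
    obtain ⟨R, hR⟩ := hb.exists_norm_le
    refine ⟨R, fun i x hx => hR x ?_⟩
    have hi : ({i} : Finset V) ∈ X := (hX {i} (Finset.singleton_nonempty i)).2 ⟨x, by simpa using hx⟩
    refine mem_iUnion₂.2 ⟨i, ?_, hx⟩
    exact Finset.mem_biUnion.2 ⟨{i}, hi, by simp⟩
  obtain ⟨e, he, hsep⟩ := ADE_min
    (fun s ε => s.Nonempty → insert v s ∉ X → ∀ x ∈ (⋂ i ∈ s, K i), ∀ k ∈ K v, ε < ‖x - k‖)
    (fun s a b hab h h1 h2 x hx k hk => lt_of_le_of_lt hab (h h1 h2 x hx k hk)) X (by
      intro s _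
      by_cases h1 : s.Nonempty
      swap
      · exact ⟨1, one_pos, fun h => absurd h h1⟩
      by_cases h2 : insert v s ∈ X
      · exact ⟨1, one_pos, fun _ h => absurd h2 h⟩
      have hc : IsCompact (⋂ i ∈ s, K i) := by
        obtain ⟨j, hj⟩ := h1
        refine (hK j).of_isClosed_subset ?_ (biInter_subset_of_mem hj)
        exact isClosed_biInter fun i _ => (hK i).isClosed
      have hd : Disjoint (⋂ i ∈ s, K i) (K v) := by
        rw [Set.disjoint_left]
        intro x hx hxv
        apply h2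
        rw [hX _ (Finset.insert_nonempty v s)]
        refine ⟨x, ?_⟩
        rw [mem_iInter₂] at hx ⊢
        intro i hi
        rcases Finset.mem_insert.1 hi with rfl | hi
        · exact hxv
        · exact hx i hi
      obtain ⟨r, hr, hrr⟩ := Metric.exists_pos_forall_lt_edist hc (hK v).isClosed hd
      refine ⟨r, by exact_mod_cast hr, fun _ _ x hx k hk => ?_⟩
      have := hrr x hx k hk
      rw [edist_dist, dist_eq_norm] at this
      by_contra hcon
      push Not at hcon
      have h3 : ENNReal.ofReal ‖x - k‖ ≤ (r : ENNReal) := by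
        rw [ENNReal.ofReal_le_iff_le_toReal (by simp)]
        simpa using hcon
      exact absurd this (not_lt.2 h3))
  refine ⟨max (R + R) (e + 1), e, he, lt_of_lt_of_le (by linarith) (le_max_right _ _), ?_, ?_⟩
  · intro i x hx k hk
    refine le_trans ?_ (le_max_left _ _)
    exact (norm_sub_le x k).trans (add_le_add (hR i x hx) (hR v k hk))
  · exact hsep

end Pool.Agent.K6.H24.CU
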