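import Pool.Agent.K6.H24.CU.Stm

set_option autoImplicit false

namespace Pool.Agent.K6.H24.CU

open Set

namespace ADK

lemma lam_cont {V : Type} (B : Finset (Finset V)) (i : V) :
    Continuous (fun y : {H // H ∈ B} → ℝ => lam B i y) := by
  classical
  unfold lam
  refine continuous_finsetSum _ fun H _ => ?_
  by_cases h : i ∈ H.1
  · simpa [h] using continuous_const
  · simpa [h] using continuous_apply H

/-- The set of the points with witnesses. -/
lemma img_compact {F : Type} [NormedAddCommGroup F] {I : Type} [Fintype I] (A C : Set F)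
    (hA : IsCompact A) (hC : IsCompact C) (c : ℝ) (g : ℝ → ℝ) (hg : Continuous g) :
    IsCompact {p : F × ℝ × (I → ℝ) | p.1 ∈ A ∧ 0 ≤ p.2.1 ∧ p.2.1 ≤ c ∧
      (∃ k ∈ C, ‖p.1 - k‖ ≤ g p.2.1) ∧ p.2.2 ∈ stdSimplex ℝ I} := by
  have h1 : IsCompact ((A ×ˢ (Icc (0 : ℝ) c ×ˢ stdSimplex ℝ I)) ×ˢ C) :=
    (hA.prod (isCompact_Icc.prod (isCompact_stdSimplex ℝ I))).prod hC
  have h2 : IsClosed {q : (F × ℝ × (I → ℝ)) × F | ‖q.1.1 - q.2‖ ≤ g q.1.2.1} :=
    isClosed_le (by fun_prop) (by fun_prop)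
  have h3 := (h1.inter_right h2).image continuous_fst
  convert h3 using 1
  ext p
  constructor
  · rintro ⟨a1, a2, a3, ⟨k, hk, a4⟩, a5⟩
    exact ⟨(p, k), ⟨⟨⟨a1, ⟨a2, a3⟩, a5⟩, hk⟩, a4⟩, rfl⟩
  · rintro ⟨⟨q, k⟩, ⟨⟨⟨a1, ⟨a2, a3⟩, a5⟩, hk⟩, a4⟩, rfl⟩
    exact ⟨a1, a2, a3, ⟨k, hk, a4⟩, a5⟩

lemma tot_compact {V F : Type} [NormedAddCommGroup F] (K : V → Set F) (v : V)
    (B : Finset (Finset V)) (c : ℝ) (hK : ∀ i, IsCompact (K i))
    (hA : ∃ A : Finset V, ∀ i, i ∉ A → K i = ∅) : IsCompact (Tot K v B c) := by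
  classical
  obtain ⟨A, hA⟩ := hA
  have hU : IsCompact (⋃ i, K i) := by
    have e : (⋃ i, K i) = ⋃ i ∈ A, K i := by
      apply Set.eq_of_subset_of_subset
      · refine Set.iUnion_subset fun i => ?_
        by_cases h : i ∈ A
        · exact Set.subset_biUnion_of_mem (u := K) (s := (A : Set V)) h
        · rw [hA i h]
          exact Set.empty_subset _
      · exact Set.iUnion₂_subset fun i _ => Set.subset_iUnion K i
    rw [e]
    exact A.isCompact_biUnion fun i _ => hK i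
  convert img_compact (I := {H // H ∈ B}) (⋃ i, K i) (K v) hU (hK v) c (fun s => c - s)
    (by fun_prop) using 1
  ext p
  constructor
  · rintro ⟨a1, a2, ⟨k, hk, a3⟩, a4⟩
    have := norm_nonneg (p.1 - k)
    exact ⟨a1, a2, by linarith, ⟨k, hk, a3⟩, a4⟩
  · rintro ⟨a1, a2, _, ⟨k, hk, a3⟩, a4⟩
    exact ⟨a1, a2, ⟨k, hk, a3⟩, a4⟩

end ADK

open ADK Pointwise in
theorem P_ADK : S_ADK := by
  intro V F _ _ _ K v w B c ε hK hA i
  have hT := tot_compact K v B c hK hA
  unfold Kn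
  split_ifs with h1 h2
  · have hc : IsClosed {p : F × ℝ × ({H // H ∈ B} → ℝ) | c ≤ p.2.1} :=
      isClosed_le continuous_const (by fun_prop)
    exact hT.inter_right hc
  · have hv : IsClosed {x : F | ∃ k ∈ K v, ‖x - k‖ ≤ ε} := by
      have e : {x : F | ∃ k ∈ K v, ‖x - k‖ ≤ ε} = K v + Metric.closedBall (0 : F) ε := by
        ext x
        rw [Set.mem_add]
        constructor
        · rintro ⟨k, hk, h⟩
          exact ⟨k, hk, x - k, by simpa using h, by abel⟩
        · rintro ⟨k, hk, y, hy, rfl⟩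
          exact ⟨k, hk, by simpa using hy⟩
      rw [e]
      exact IsClosed.add_left_of_isCompact Metric.isClosed_closedBall (hK v)
    exact hT.inter_right (hv.preimage continuous_fst)
  · have h3 : IsClosed {p : F × ℝ × ({H // H ∈ B} → ℝ) | p.1 ∈ K i} :=
      (hK i).isClosed.preimage continuous_fst
    have h4 : IsClosed {p : F × ℝ × ({H // H ∈ B} → ℝ) | p.2.1 ≤ c - ε * lam B i p.2.2} := by
      refine isClosed_le (by fun_prop) ?_
      exact continuous_const.sub (continuous_const.mul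
        ((lam_cont B i).comp (continuous_snd.comp continuous_snd)))
    exact hT.inter_right (h3.inter h4)

end Pool.Agent.K6.H24.CU
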