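import Pool.Agent.K6.H24.CU.Stm

set_option autoImplicit false

namespace Pool.Agent.K6.H24.CU

open Set

namespace ADU

lemma lam_le {V : Type} (B : Finset (Finset V)) (i : V) (y : {H // H ∈ B} → ℝ)
    (hy : y ∈ stdSimplex ℝ {H // H ∈ B}) : lam B i y ≤ 1 := by
  classical
  unfold lam
  rw [← hy.2]
  refine Finset.sum_le_sum fun H _ => ?_
  by_cases h : i ∈ H.1
  · simp [h, hy.1 H]
  · simp [h]

end ADU

open ADU in
theorem P_ADU : S_ADU := by
  intro V F _ _ _ K v w B c ε hε hvw hKw
  apply Set.eq_of_subset_of_subset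
  · refine Set.iUnion_subset fun i => ?_
    unfold Kn
    split_ifs with h1 h2
    · exact fun p hp => hp.1
    · exact fun p hp => hp.1
    · exact fun p hp => hp.1
  · intro p hp
    have hp0 := hp
    obtain ⟨h1, h2, ⟨k, hk, h3⟩, h4⟩ := hp
    rw [Set.mem_iUnion]
    by_cases hs : c - ε < p.2.1
    · refine ⟨v, ?_⟩
      unfold Kn
      rw [if_neg hvw, if_pos rfl]
      exact ⟨hp0, k, hk, by linarith⟩
    · rw [Set.mem_iUnion] at h1
      obtain ⟨i, hi⟩ := h1
      refine ⟨i, ?_⟩
      have hiw : i ≠ w := by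
        rintro rfl
        rw [hKw] at hi
        exact hi
      unfold Kn
      rw [if_neg hiw]
      split_ifs with h5
      · subst h5
        exact ⟨hp0, p.1, hi, by simp [hε.le]⟩
      · refine ⟨hp0, hi, ?_⟩
        have := lam_le B i p.2.2 h4
        nlinarith

end Pool.Agent.K6.H24.CU
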