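import Pool.Agent.K6.H24.CU.Stm

set_option autoImplicit false

namespace Pool.Agent.K6.H24.CU

open Set

namespace BAS

theorem cell_singleton {E : Type} [AddCommGroup E] [Module ℝ E] (e : E) :
    cell ({e} : Finset E) = {e} := by
  classical
  ext x
  constructor
  · rintro ⟨a, ⟨-, -, h1⟩, h2⟩
    rw [Finset.sum_singleton] at h1 h2
    rw [h1, one_smul] at h2
    exact h2.symm
  · intro hx
    have hx' : x = e := hx
    subst hx'
    refine ⟨fun y => if y = x then 1 else 0, ⟨?_, ?_, ?_⟩, ?_⟩
    · intro u
      show (0 : ℝ) ≤ if u = x then 1 else 0
      split_ifs <;> norm_num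
    · intro u hu
      have : u ≠ x := fun h => hu (by simp [h])
      simp [this]
    · simp
    · simp

theorem cell_empty {E : Type} [AddCommGroup E] [Module ℝ E] :
    cell (∅ : Finset E) = ∅ := by
  ext x
  constructor
  · rintro ⟨a, ⟨-, -, h1⟩, -⟩
    simp at h1
  · intro h
    exact h.elim

end BAS

theorem P_BAS : S_BAS := by
  classical
  intro V _ _ v
  set e : V → ℝ := Pi.single v 1 with he
  have hmem : ∀ s : Finset (V → ℝ), s ∈ ({∅, {e}} : Finset (Finset (V → ℝ))) ↔ s = ∅ ∨ s = {e} := by
    intro s; simp
  refine ⟨{∅, {e}}, ⟨⟨?_, ?_⟩, ?_⟩, ?_, ?_, ?_⟩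
  · simp
  · intro s hs t hts
    rw [hmem] at hs ⊢
    rcases hs with rfl | rfl
    · exact Or.inl (Finset.subset_empty.1 hts)
    · exact Finset.subset_singleton_iff.1 hts
  · intro s hs t ht a b ha hb _
    rw [hmem] at hs ht
    have key : ∀ (s : Finset (V → ℝ)) (a : (V → ℝ) → ℝ), (s = ∅ ∨ s = {e}) → Bary s a →
        a = fun u => if u = e then 1 else 0 := by
      intro s a hs ha
      obtain ⟨-, h2, h3⟩ := ha
      rcases hs with rfl | rfl
      · simp at h3
      · rw [Finset.sum_singleton] at h3
        funext u
        by_cases hu : u = e
        · simp [hu, h3]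
        · rw [if_neg hu]
          exact h2 u (by simpa using hu)
    rw [key s a hs ha, key t b ht hb]
  · refine ⟨ℝ, inferInstance, inferInstance, inferInstance,
      fun i => if i = e then {0} else ∅, ?_, ?_, ?_, ?_⟩
    · intro i
      dsimp only
      split_ifs
      · exact isCompact_singleton
      · exact isCompact_empty
    · intro i
      dsimp only
      split_ifs
      · exact convex_singleton 0
      · exact convex_empty
    · have : (⋃ i : V → ℝ, (if i = e then ({0} : Set ℝ) else ∅)) = {0} := by
        ext x
        simp only [mem_iUnion, mem_singleton_iff]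
        constructor
        · rintro ⟨i, hi⟩
          split_ifs at hi with h
          · exact hi
          · exact hi.elim
        · rintro rfl
          exact ⟨e, by simp⟩
      rw [this]
      exact convex_singleton 0
    · intro s hs
      rw [hmem]
      constructor
      · rintro (rfl | rfl)
        · exact absurd hs (by simp)
        · exact ⟨0, by simp⟩
      · rintro ⟨x, hx⟩
        right
        rw [Finset.eq_singleton_iff_nonempty_unique_mem]
        refine ⟨hs, fun y hy => ?_⟩
        have h1 := mem_iInter₂.1 hx y hy
        by_contra hne
        dsimp only at h1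
        rw [if_neg hne] at h1
        exact h1
  · intro s hs
    rw [hmem] at hs
    rcases hs with rfl | rfl
    · exact ⟨∅, by simp, by rw [BAS.cell_empty]; exact empty_subset _⟩
    · refine ⟨{v}, by simp, ?_⟩
      rw [BAS.cell_singleton]
      intro x hx
      have hx' : x = e := hx
      subst hx'
      refine ⟨?_, ?_, ?_⟩
      · intro i
        by_cases hi : i = v
        · subst hi; simp [he]
        · rw [he, Pi.single_eq_of_ne hi]
      · intro i hi
        have : i ≠ v := fun h => hi (by simp [h])
        rw [he, Pi.single_eq_of_ne this]
      · rw [he, Finset.sum_eq_single v]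
        · simp
        · intro b _ hb
          rw [Pi.single_eq_of_ne hb]
        · intro h
          exact absurd (Finset.mem_univ v) h
  · intro F hF x hx
    have hF' : F = ∅ ∨ F = {v} := by simpa using hF
    rcases hF' with rfl | rfl
    · exfalso
      obtain ⟨-, h2, h3⟩ := hx
      rw [Finset.sum_eq_zero (fun i _ => h2 i (by simp))] at h3
      exact zero_ne_one h3
    · have hxe : x = e := by
        obtain ⟨-, h2, h3⟩ := hx
        funext i
        by_cases hi : i = v
        · subst hi
          rw [Finset.sum_eq_single i (fun b _ hb => h2 b (by simpa using hb))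
            (fun h => absurd (Finset.mem_univ i) h)] at h3
          rw [h3, he, Pi.single_eq_same]
        · rw [he, Pi.single_eq_of_ne hi]
          exact h2 i (by simpa using hi)
      refine ⟨{e}, by simp, ?_, ?_⟩
      · rw [BAS.cell_singleton]
        intro y hy
        have hy' : y = e := hy
        rw [hy', ← hxe]
        exact hx
      · rw [BAS.cell_singleton]
        exact hxe

end Pool.Agent.K6.H24.CU
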