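import Pool.Agent.K6.H24.CU.Stm

/-!
Piece CAL (helper13): attaching a visible cone over a subcomplex.
-/

namespace Pool.Agent.K6.H24.CU

namespace CAL

variable {E : Type} [AddCommGroup E] [Module ℝ E]

theorem not_mem {s : Finset E} {w : E} (h : w ∉ cell s) : w ∉ s := by
  classical
  intro hw
  refine h ⟨fun u => if u = w then 1 else 0, ⟨fun u => ?_, fun u hu => ?_, ?_⟩, ?_⟩
  · dsimp only; split_ifs <;> norm_num
  · have : u ≠ w := by rintro rfl; exact hu hw
    simp [this]
  · simp [hw]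
  · simp [hw]

/-- The three possible forms of a point of a simplex of the new complex. -/
theorem form [DecidableEq E] (K B : Finset (Finset E)) (w : E) (hB : B ⊆ K)
    (hw : ∀ s ∈ K, w ∉ cell s) {s : Finset E} (hs : s ∈ K ∪ B.image (insert w)) {a : E → ℝ}
    (ha : Bary s a) :
    (a w = 0 ∧ ∃ t ∈ K, Bary t a ∧ ∑ u ∈ s, a u • u = ∑ u ∈ t, a u • u) ∨
    (a w = 1 ∧ (∀ u, u ≠ w → a u = 0) ∧ ∑ u ∈ s, a u • u = w) ∨
    (0 < a w ∧ a w < 1 ∧ ∃ t ∈ B, ∃ a', Bary t a' ∧ (∀ u, u ≠ w → a u = (1 - a w) * a' u) ∧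
      ∑ u ∈ s, a u • u = (1 - a w) • (∑ u ∈ t, a' u • u) + a w • w) := by
  obtain ⟨h0, h1, h2⟩ := ha
  rw [Finset.mem_union, Finset.mem_image] at hs
  rcases hs with hs | ⟨t, ht, rfl⟩
  · exact Or.inl ⟨h1 w (not_mem (hw s hs)), s, hs, ⟨h0, h1, h2⟩, rfl⟩
  have hwt : w ∉ t := not_mem (hw t (hB ht))
  rw [Finset.sum_insert hwt] at h2
  rw [Finset.sum_insert hwt]
  have hnn : 0 ≤ ∑ u ∈ t, a u := Finset.sum_nonneg fun u _ => h0 u
  rcases (h0 w).eq_or_lt with h | h
  · left
    refine ⟨h.symm, t, hB ht, ⟨h0, fun u hu => ?_, ?_⟩, ?_⟩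
    · by_cases huw : u = w
      · rw [huw, ← h]
      · exact h1 u (by simp [huw, hu])
    · linarith
    · rw [← h, zero_smul, zero_add]
  · have hle : a w ≤ 1 := by linarith
    rcases hle.eq_or_lt with h' | h'
    · right; left
      have hz : ∀ u ∈ t, a u = 0 := by
        have : ∑ u ∈ t, a u = 0 := by linarith
        exact (Finset.sum_eq_zero_iff_of_nonneg fun u _ => h0 u).1 this
      refine ⟨h', fun u hu => ?_, ?_⟩
      · by_cases hut : u ∈ t
        · exact hz u hut
        · exact h1 u (by simp [hu, hut])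
      · rw [h', one_smul, Finset.sum_eq_zero (fun u hu => by rw [hz u hu, zero_smul]), add_zero]
    · right; right
      have hpos : 0 < 1 - a w := by linarith
      refine ⟨h, h', t, ht, fun u => if u = w then 0 else a u / (1 - a w),
        ⟨fun u => ?_, fun u hu => ?_, ?_⟩, fun u hu => ?_, ?_⟩
      · dsimp only
        split_ifs
        · exact le_rfl
        · exact div_nonneg (h0 u) hpos.le
      · dsimp only
        split_ifs with huw
        · rfl
        · rw [h1 u (by simp [huw, hu]), zero_div]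
      · have : ∑ u ∈ t, (if u = w then 0 else a u / (1 - a w)) = ∑ u ∈ t, a u / (1 - a w) := by
          refine Finset.sum_congr rfl fun u hu => ?_
          rw [if_neg (by rintro rfl; exact hwt hu)]
        rw [this, ← Finset.sum_div, div_eq_one_iff_eq hpos.ne']
        linarith
      · dsimp only
        rw [if_neg hu]
        field_simp
      · have : ∑ u ∈ t, (if u = w then 0 else a u / (1 - a w)) • u =
            ∑ u ∈ t, (1 - a w)⁻¹ • (a u • u) := by
          refine Finset.sum_congr rfl fun u hu => ?_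
          rw [if_neg (by rintro rfl; exact hwt hu), smul_smul]
          congr 1
          rw [div_eq_inv_mul]
        rw [this, ← Finset.smul_sum, smul_smul, mul_inv_cancel₀ hpos.ne', one_smul, add_comm]

theorem two {K B : Finset (Finset E)} {w : E} (hB : B ⊆ K)
    (hvis : ∀ t ∈ B, ∀ y ∈ cell t, ∀ θ : ℝ, 0 < θ → θ < 1 → ∀ s ∈ K,
      (1 - θ) • y + θ • w ∉ cell s) {s t : Finset E} (hs : s ∈ B) (ht : t ∈ B) {x y : E}
    (hx : x ∈ cell s) (hy : y ∈ cell t) {α β : ℝ} (hα : α < 1) (hβ : β < 1) (hαβ : α ≤ β)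
    (h : (1 - α) • x + α • w = (1 - β) • y + β • w) : α = β ∧ x = y := by
  have hpos : 0 < 1 - α := by linarith
  have hxy : x = (1 - (β - α) / (1 - α)) • y + ((β - α) / (1 - α)) • w := by
    have h1 : (1 - α) • x = (1 - β) • y + (β - α) • w := by
      rw [sub_smul β α w, ← add_sub_assoc, ← h, add_sub_cancel_right]
    have h2 : x = (1 - α)⁻¹ • ((1 - α) • x) := by
      rw [smul_smul, inv_mul_cancel₀ hpos.ne', one_smul]
    rw [h2, h1, smul_add, smul_smul, smul_smul]
    congr 2
    · field_simp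
      ring
    · field_simp
  rcases hαβ.eq_or_lt with hab | hab
  · refine ⟨hab, ?_⟩
    rw [hxy, hab]
    simp
  · exfalso
    have hμ0 : 0 < (β - α) / (1 - α) := div_pos (by linarith) hpos
    have hμ1 : (β - α) / (1 - α) < 1 := by
      rw [div_lt_one hpos]; linarith
    apply hvis t ht y hy _ hμ0 hμ1 s (hB hs)
    rw [← hxy]
    exact hx

end CAL

open CAL in
theorem P_CAL : S_CAL := by
  intro E _ _ _ K B w hK hB hBc hw hvis
  obtain ⟨⟨hK0, hK1⟩, hKu⟩ := hK
  refine ⟨⟨?_, ?_⟩, ?_⟩
  · exact Finset.mem_union_left _ hK0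
  · intro s hs t hts
    rw [Finset.mem_union, Finset.mem_image] at hs ⊢
    rcases hs with hs | ⟨b, hb, rfl⟩
    · exact Or.inl (hK1 s hs t hts)
    · by_cases hwt : w ∈ t
      · right
        refine ⟨t.erase w, hBc.2 b hb _ ?_, Finset.insert_erase hwt⟩
        intro u hu
        rw [Finset.mem_erase] at hu
        have := hts hu.2
        rw [Finset.mem_insert] at this
        exact this.resolve_left hu.1
      · left
        refine hB (hBc.2 b hb _ fun u hu => ?_)
        have := hts hu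
        rw [Finset.mem_insert] at this
        refine this.resolve_left ?_
        rintro rfl
        exact hwt hu
  · intro s hs t ht a b ha hb hab
    rcases form K B w hB hw hs ha with ⟨ha0, s', hs', ha', hax⟩ | ⟨ha1, ha', hax⟩ |
      ⟨ha0, ha1, s', hs', a', ha', haa, hax⟩ <;>
    rcases form K B w hB hw ht hb with ⟨hb0, t', ht', hb', hbx⟩ | ⟨hb1, hb', hbx⟩ |
      ⟨hb0, hb1, t', ht', b', hb', hbb, hbx⟩ <;> rw [hax, hbx] at hab
    · exact hKu s' hs' t' ht' a b ha' hb' hab
    · exact absurd ⟨a, ha', hab⟩ (hw s' hs')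
    · exact absurd ⟨a, ha', hab⟩ (hvis t' ht' _ ⟨b', hb', rfl⟩ _ hb0 hb1 s' hs')
    · exact absurd ⟨b, hb', hab.symm⟩ (hw t' ht')
    · funext u
      by_cases hu : u = w
      · rw [hu, ha1, hb1]
      · rw [ha' u hu, hb' u hu]
    · exfalso
      have h1 : (1 - b w) • (∑ u ∈ t', b' u • u) = (1 - b w) • w := by
        rw [sub_smul 1 (b w) w, one_smul]
        rw [eq_sub_iff_add_eq]
        exact hab.symm
      have h2 : ∑ u ∈ t', b' u • u = w := by
        have hpos : (1 - b w) ≠ 0 := by linarith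
        have := congrArg (fun z => (1 - b w)⁻¹ • z) h1
        simpa [smul_smul, inv_mul_cancel₀ hpos] using this
      exact hw t' (hB ht') ⟨b', hb', h2⟩
    · exact absurd ⟨b, hb', hab.symm⟩ (hvis s' hs' _ ⟨a', ha', rfl⟩ _ ha0 ha1 t' ht')
    · exfalso
      have h1 : (1 - a w) • (∑ u ∈ s', a' u • u) = (1 - a w) • w := by
        rw [sub_smul 1 (a w) w, one_smul]
        rw [eq_sub_iff_add_eq]
        exact hab
      have h2 : ∑ u ∈ s', a' u • u = w := by
        have hpos : (1 - a w) ≠ 0 := by linarith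
        have := congrArg (fun z => (1 - a w)⁻¹ • z) h1
        simpa [smul_smul, inv_mul_cancel₀ hpos] using this
      exact hw s' (hB hs') ⟨a', ha', h2⟩
    · have key : a w = b w ∧ ∑ u ∈ s', a' u • u = ∑ u ∈ t', b' u • u := by
        rcases le_total (a w) (b w) with h | h
        · exact two hB hvis hs' ht' ⟨a', ha', rfl⟩ ⟨b', hb', rfl⟩ ha1 hb1 h hab
        · obtain ⟨h1, h2⟩ := two hB hvis ht' hs' ⟨b', hb', rfl⟩ ⟨a', ha', rfl⟩ hb1 ha1 h hab.symm
          exact ⟨h1.symm, h2.symm⟩
      have h3 := hKu s' (hB hs') t' (hB ht') a' b' ha' hb' key.2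
      funext u
      by_cases hu : u = w
      · rw [hu, key.1]
      · rw [haa u hu, hbb u hu, key.1, h3]

end Pool.Agent.K6.H24.CU
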