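import Pool.Agent.K6.H24.CU.Stm

/-!
Piece CELL (helper13): the cell of a finite set is its convex hull.
-/

namespace Pool.Agent.K6.H24.CU

theorem P_CELL : S_CELL := by
  classical
  intro E _ _ s
  ext x
  rw [Finset.mem_convexHull']
  constructor
  · rintro ⟨a, ⟨h0, -, h2⟩, h3⟩
    exact ⟨a, fun y _ => h0 y, h2, h3⟩
  · rintro ⟨w, h0, h1, h2⟩
    refine ⟨fun u => if u ∈ s then w u else 0, ⟨fun u => ?_, fun u hu => ?_, ?_⟩, ?_⟩
    · by_cases hu : u ∈ s
      · simpa [hu] using h0 u hu
      · simp [hu]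
    · simp [hu]
    · rw [← h1]
      exact Finset.sum_congr rfl fun u hu => by simp [hu]
    · rw [← h2]
      exact Finset.sum_congr rfl fun u hu => by simp [hu]

end Pool.Agent.K6.H24.CU
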