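import Pool.Agent.K6.H24.CU.P_VIS

namespace Pool.Agent.K6.H24.CU

open Set P_VIS

theorem P_FIL (h : S_IMG) : S_FIL := by
  intro E _ _ _ S₀ P ht d A hp u huA s hs hsP a ha x hpx hlo hhi
  have hd := hp.htd
  have hus : u ∈ s := by
    by_contra hus
    have : s \ insert u A = s \ A := by
      ext l
      simp only [Finset.mem_sdiff, Finset.mem_insert, not_or]
      constructor
      · rintro ⟨h1, _, h2⟩
        exact ⟨h1, h2⟩
      · rintro ⟨h1, h2⟩
        exact ⟨h1, fun e => hus (e ▸ h1), h2⟩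
    rw [this] at hlo
    linarith
  refine ⟨hus, ?_⟩
  have husA : u ∈ s \ A := Finset.mem_sdiff.mpr ⟨hus, huA⟩
  have hers : s \ insert u A = (s \ A).erase u := by
    ext l
    simp only [Finset.mem_sdiff, Finset.mem_insert, not_or, Finset.mem_erase]
    tauto
  have hsplit : ∑ l ∈ s \ A, a l * ht l = ∑ l ∈ s \ insert u A, a l * ht l + a u * ht u := by
    rw [hers, Finset.sum_erase_add _ _ husA]
  have hpos : 0 < a u * ht u := by linarith
  set L := ∑ l ∈ s \ insert u A, a l * ht l with hL
  set ρ : ℝ := (ht x - L) / (a u * ht u) with hρ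
  have hρ0 : 0 ≤ ρ := div_nonneg (by linarith) hpos.le
  have hρ1 : ρ ≤ 1 := by
    rw [hρ, div_le_one hpos]
    linarith
  have hρe : ht x = L + ρ * (a u * ht u) := by
    rw [hρ, div_mul_cancel₀ _ hpos.ne']
    ring
  set b : E → ℝ := fun l => a l + if l = u then (ρ - 1) * a u else 0 with hb
  have hau : 0 ≤ a u := ha.1 u
  have hbary : (∑ l ∈ s, b l) + (1 - ρ) * a u = 1 := by
    have h1 := sum_add_ite (M := ℝ) s u hus a ((ρ - 1) * a u) (fun _ => 1)
    simp only [smul_eq_mul, mul_one] at h1
    simp only [hb]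
    rw [h1, ha.2.2]
    ring
  have hx : ∑ l ∈ s, b l • lft ht d A l + ((1 - ρ) * a u) • prj ht d u = x := by
    rw [eq_prj_add ht d (∑ l ∈ s, b l • lft ht d A l + ((1 - ρ) * a u) • prj ht d u)]
    conv_rhs => rw [eq_prj_add ht d x]
    congr 1
    · rw [prj_add, prj_smul, prj_prj ht d hd, prj_sum_lft ht d hd, hpx]
      simp only [hb]
      rw [sum_add_ite s u hus a ((ρ - 1) * a u) (fun l => prj ht d l), add_assoc, ← add_smul]
      rw [show (ρ - 1) * a u + (1 - ρ) * a u = 0 by ring, zero_smul, add_zero]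
    · congr 1
      rw [map_add, map_smul, ht_prj ht d hd, ht_sum_lft ht d hd, smul_zero, add_zero, hρe]
      have h1 := sum_add_ite (M := ℝ) (s \ A) u husA a ((ρ - 1) * a u) (fun l => ht l)
      simp only [smul_eq_mul] at h1
      simp only [hb]
      rw [h1, hsplit]
      ring
  rw [← hx]
  apply (h E (lft ht d A) s).2.2.1 (prj ht d u) b ((1 - ρ) * a u)
  · intro l
    simp only [hb]
    by_cases hl : l = u
    · rw [if_pos hl, hl]
      have := mul_nonneg hρ0 hau
      linarith
    · rw [if_neg hl, add_zero]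
      exact ha.1 l
  · intro l hl
    simp only [hb]
    rw [ha.2.1 l hl, if_neg (by rintro rfl; exact hl hus), add_zero]
  · exact mul_nonneg (by linarith) hau
  · exact hbary

end Pool.Agent.K6.H24.CU
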