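import Pool.Agent.K6.H24.CU.Stm

namespace Pool.Agent.K6.H24.CU

open Set

theorem spx_convex' {V : Type} [Fintype V] (F : Finset V) : Convex ℝ (spx F) := by
  intro x hx y hy a b ha hb hab
  refine ⟨fun i => ?_, fun i hi => ?_, ?_⟩
  · simp only [Pi.add_apply, Pi.smul_apply, smul_eq_mul]
    exact add_nonneg (mul_nonneg ha (hx.1 i)) (mul_nonneg hb (hy.1 i))
  · simp [hx.2.1 i hi, hy.2.1 i hi]
  · simp only [Pi.add_apply, Pi.smul_apply, smul_eq_mul, Finset.sum_add_distrib, ← Finset.mul_sum]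
    rw [hx.2.2, hy.2.2]
    linarith

theorem P_FIN (h1 : S_PRI) (h2 : S_FIX) (h3 : S_CELL) : S_FIN := by
  intro V _ _ X v τ S₀ hτ hvτ hX hτX hF hG hC hS
  have hP := h2 V X v τ S₀ hτ hvτ hX hτX hF hG hC hS
  obtain ⟨S, hG', hC', hsub, hdich, hcov, hcov0⟩ :=
    h1 (V → ℝ) S₀ (spx (insert v τ)) (LinearMap.proj v) (dirv v τ) hP
  have hcell : ∀ (t : Finset (V → ℝ)) (F : Finset V), (∀ u ∈ t, u ∈ spx F) → cell t ⊆ spx F := by
    intro t F ht
    rw [h3 (V → ℝ) t]
    exact convexHull_min (fun u hu => ht u hu) (spx_convex' F)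
  refine ⟨S, hG', hC', ?_, ?_⟩
  · intro s hs
    rcases hdich s hs with h | h
    · obtain ⟨F, hFX, hFs⟩ := hS.1 s h
      exact ⟨F, Finset.mem_union_left _ hFX, hFs⟩
    · exact ⟨insert v τ, by simp, hcell s _ h⟩
  · intro F hFX x hx
    rcases Finset.mem_union.mp hFX with h | h
    · obtain ⟨s, hs, hsF, hxs⟩ := hS.2 F h x hx
      exact ⟨s, hsub hs, hsF, hxs⟩
    · rcases Finset.mem_insert.mp h with rfl | h
      · have hxσ : x ∈ spx (insert v F) := by
          refine ⟨hx.1, fun i hi => hx.2.1 i (fun h => hi (Finset.mem_insert_of_mem h)), hx.2.2⟩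
        obtain ⟨t, ht, htu, hxt⟩ := hcov0 x hxσ (hx.2.1 v hvτ)
        refine ⟨t, ht, hcell t F ?_, hxt⟩
        intro u hu
        obtain ⟨h4, h5⟩ := htu u hu
        refine ⟨h4.1, fun i hi => ?_, h4.2.2⟩
        by_cases hiv : i = v
        · rw [hiv]; exact h5
        · exact h4.2.1 i (by simp [hiv, hi])
      · obtain rfl := Finset.mem_singleton.mp h
        obtain ⟨t, ht, htu, hxt⟩ := hcov x hx
        exact ⟨t, ht, hcell t _ htu, hxt⟩

theorem P_COL (hFIN : S_FIN) (hBAS : S_BAS) : S_COL := by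
  intro V _ _ X hX hc
  induction hc with
  | vertex v => exact hBAS V v
  | step X τ σ hτ hσ h hfree hc ih =>
    -- the empty face is in every collapsible collection
    have hemp : ∀ Z : Finset (Finset V), Collapsible Z → ∅ ∈ Z := by
      intro Z hZ
      induction hZ with
      | vertex v => simp
      | step X τ σ hτ hσ h hfree hc ih =>
        exact (Finset.mem_sdiff.mp ih).1
    have h0 : ∅ ∈ X \ {τ, σ} := hemp _ hc
    have hτ0 : τ.Nonempty := by
      rw [Finset.nonempty_iff_ne_empty]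
      rintro rfl
      simp at h0
    obtain ⟨hsub, hne⟩ := (Finset.ssubset_iff_subset_ne).mp h
    obtain ⟨v, hvσ, hvτ⟩ := Finset.exists_of_ssubset h
    have hσeq : σ = insert v τ := by
      refine (hfree (insert v τ) (hX.2 σ hσ _ ?_) (Finset.ssubset_insert hvτ)).symm
      exact Finset.insert_subset hvσ hsub
    subst hσeq
    have hX' : IsCpx (X \ {τ, insert v τ}) := by
      refine ⟨h0, ?_⟩
      intro s hs t hts
      obtain ⟨h1, h2⟩ := Finset.mem_sdiff.mp hs
      refine Finset.mem_sdiff.mpr ⟨hX.2 s h1 t hts, ?_⟩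
      intro h3
      apply h2
      have hτs : τ ⊆ s := by
        rcases Finset.mem_insert.mp h3 with rfl | h3
        · exact hts
        · obtain rfl := Finset.mem_singleton.mp h3
          exact (Finset.subset_insert v τ).trans hts
      by_cases hs' : τ = s
      · simp [hs']
      · have := hfree s h1 (Finset.ssubset_iff_subset_ne.mpr ⟨hτs, hs'⟩)
        simp [this]
    obtain ⟨S₀, hG, hC, hS⟩ := ih hX'
    have hτX : τ ∉ X \ {τ, insert v τ} := by simp
    have hfaces : ∀ F, F ⊆ insert v τ → F ≠ τ → F ≠ insert v τ → F ∈ X \ {τ, insert v τ} := by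
      intro F h1 h2 h3
      refine Finset.mem_sdiff.mpr ⟨hX.2 _ hσ F h1, ?_⟩
      simp [h2, h3]
    obtain ⟨S, hG', hC', hS'⟩ := hFIN V (X \ {τ, insert v τ}) v τ S₀ hτ0 hvτ hX' hτX hfaces hG hC hS
    refine ⟨S, hG', hC', ?_⟩
    have : X \ {τ, insert v τ} ∪ {τ, insert v τ} = X := by
      refine Finset.sdiff_union_of_subset ?_
      intro s hs
      rcases Finset.mem_insert.mp hs with rfl | hs
      · exact hτ
      · obtain rfl := Finset.mem_singleton.mp hs
        exact hσ
    rw [this] at hS'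
    exact hS'

end Pool.Agent.K6.H24.CU
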