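import Pool.Agent.K6.H24.CU.Stm

set_option autoImplicit false

/-!
# FIX: an elementary expansion yields a prism (piece of helper37)
-/

namespace Pool.Agent.K6.H24.CU

open Set

namespace FIX

theorem prj_sum {E : Type} [AddCommGroup E] [Module ℝ E] (ht : E →ₗ[ℝ] ℝ) (d : E) (s : Finset E)
    (a : E → ℝ) : prj ht d (∑ u ∈ s, a u • u) = ∑ u ∈ s, a u • prj ht d u := by
  unfold prj
  rw [map_sum, Finset.sum_smul, ← Finset.sum_sub_distrib]
  refine Finset.sum_congr rfl fun u _ => ?_
  rw [map_smul, smul_sub, smul_smul, smul_eq_mul]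

theorem self_mem_cell {E : Type} [AddCommGroup E] [Module ℝ E] {s : Finset E} {u : E}
    (hu : u ∈ s) : u ∈ cell s := by
  classical
  refine ⟨fun w => if w = u then 1 else 0, ⟨fun w => ?_, fun w hw => ?_, ?_⟩, ?_⟩
  · dsimp only
    split_ifs
    · exact zero_le_one
    · exact le_rfl
  · dsimp only
    rw [if_neg]
    rintro rfl
    exact hw hu
  · rw [Finset.sum_ite_eq' s u]
    simp [hu]
  · simp [ite_smul, Finset.sum_ite_eq', hu]

theorem convex_spx {V : Type} [Fintype V] (F : Finset V) : Convex ℝ (spx F) := by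
  intro x hx y hy a b ha hb hab
  refine ⟨fun i => ?_, fun i hi => ?_, ?_⟩
  · have := hx.1 i
    have := hy.1 i
    simp only [Pi.add_apply, Pi.smul_apply, smul_eq_mul]
    positivity
  · simp only [Pi.add_apply, Pi.smul_apply, smul_eq_mul]
    rw [hx.2.1 i hi, hy.2.1 i hi]
    ring
  · simp only [Pi.add_apply, Pi.smul_apply, smul_eq_mul, Finset.sum_add_distrib,
      ← Finset.mul_sum]
    rw [hx.2.2, hy.2.2]
    linarith

theorem sum_mem {E : Type} [AddCommGroup E] [Module ℝ E] {P : Set E} (hP : Convex ℝ P)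
    {s : Finset E} {a : E → ℝ} (ha : Bary s a) (hs : ∀ u ∈ s, u ∈ P) :
    ∑ u ∈ s, a u • u ∈ P :=
  hP.sum_mem (fun u _ => ha.1 u) ha.2.2 hs

theorem key {V : Type} [Fintype V] {X : Finset (Finset V)} {τ : Finset V}
    {S₀ : Finset (Finset (V → ℝ))} (hX : IsCpx X) (hτ : τ ∉ X) (hS : Subd S₀ X)
    {s : Finset (V → ℝ)} (hs : s ∈ S₀) {x : V → ℝ} (hx : x ∈ cell s) : ∃ i ∈ τ, x i = 0 := by
  obtain ⟨F, hF, hsub⟩ := hS.1 s hs
  have hxF := hsub hx
  by_contra hcon
  push Not at hcon
  apply hτ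
  apply hX.2 F hF
  intro i hi
  by_contra hiF
  exact hcon i hi (hxF.2.1 i hiF)

end FIX

open FIX

theorem P_FIX (h1 : S_HIN) : S_FIX := by
  intro V _ _ X v τ S₀ hτ hv hX hτX hFX hgeo hcc hsub
  obtain ⟨H1, H2, H3⟩ := h1 V v τ hτ hv
  have hd : dirv v τ v = 1 := by simp [dirv]
  refine ⟨hgeo, hcc, convex_spx _, ?_, H1, fun x hx => hx.1 v, ?_, ?_, ?_⟩
  · simpa using hd
  · intro s hs hsP t ht htP a b ha hb hab
    rw [← prj_sum, ← prj_sum] at hab
    have hx := sum_mem (convex_spx _) ha hsP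
    have hy := sum_mem (convex_spx _) hb htP
    have hx0 := key hX hτX hsub hs ⟨a, ha, rfl⟩
    have hy0 := key hX hτX hsub ht ⟨b, hb, rfl⟩
    have e1 := H2 _ hx _ hy hy0 hab
    have e2 := H2 _ hy _ hx hx0 hab.symm
    have e3 := le_antisymm e1 e2
    apply hgeo.2 s hs t ht a b ha hb
    have e4 : (LinearMap.proj v : (V → ℝ) →ₗ[ℝ] ℝ) (∑ u ∈ s, a u • u) =
        (LinearMap.proj v : (V → ℝ) →ₗ[ℝ] ℝ) (∑ u ∈ t, b u • u) := e3
    have e5 := hab
    unfold prj at e5
    rw [e4] at e5
    exact sub_left_injective e5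
  · intro x hx
    obtain ⟨y, hy, ⟨i, hi, hyi⟩, hpy⟩ := H3 x hx
    classical
    set F : Finset V := Finset.univ.filter (fun j => y j ≠ 0) with hF
    have hiF : i ∉ F := by
      rw [hF, Finset.mem_filter]
      exact fun h => h.2 hyi
    have hFs : F ⊆ insert v τ := by
      intro j hj
      rw [hF, Finset.mem_filter] at hj
      by_contra hj'
      exact hj.2 (hy.2.1 j hj')
    have hFX' : F ∈ X := by
      apply hFX F hFs
      · rintro h
        rw [h] at hiF
        exact hiF hi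
      · rintro h
        rw [h] at hiF
        exact hiF (Finset.mem_insert_of_mem hi)
    have hyF : y ∈ spx F := by
      refine ⟨hy.1, fun j hj => ?_, hy.2.2⟩
      by_contra hj'
      exact hj (by rw [hF, Finset.mem_filter]; exact ⟨Finset.mem_univ _, hj'⟩)
    have hFsub : spx F ⊆ spx (insert v τ) := fun z hz =>
      ⟨hz.1, fun j hj => hz.2.1 j (fun h => hj (hFs h)), hz.2.2⟩
    obtain ⟨s, hs, hsF, hys⟩ := hsub.2 F hFX' y hyF
    obtain ⟨a, ha, rfl⟩ := hys
    refine ⟨s, hs, fun u hu => hFsub (hsF (self_mem_cell hu)), a, ha, ?_, ?_⟩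
    · rw [← prj_sum, hpy]
    · have e1 := H2 x hx _ hy ⟨i, hi, hyi⟩ hpy.symm
      refine e1.trans (le_of_eq ?_)
      rw [Finset.sum_apply]
      rfl
  · intro t ht z hz hzP
    obtain ⟨F, hF, hcF⟩ := hsub.1 t ht
    obtain ⟨a, ha, rfl⟩ := hz
    classical
    refine ⟨t.filter (fun u => a u ≠ 0), hgeo.1.2 t ht _ (Finset.filter_subset _ _), ?_, a, ?_, ?_⟩
    · intro u hu
      rw [Finset.mem_filter] at hu
      have huF := hcF (self_mem_cell hu.1)
      refine ⟨huF.1, fun i hi => ?_, huF.2.2⟩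
      have h0 := hzP.2.1 i hi
      rw [Finset.sum_apply] at h0
      have h2 := (Finset.sum_eq_zero_iff_of_nonneg (fun w hw => by
        have := (hcF (self_mem_cell hw)).1 i
        have := ha.1 w
        simp only [Pi.smul_apply, smul_eq_mul]
        positivity)).1 h0 u hu.1
      simp only [Pi.smul_apply, smul_eq_mul] at h2
      exact (mul_eq_zero.1 h2).resolve_left hu.2
    · refine ⟨ha.1, fun u hu => ?_, ?_⟩
      · by_contra hne
        apply hu
        rw [Finset.mem_filter]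
        refine ⟨?_, hne⟩
        by_contra hut
        exact hne (ha.2.1 u hut)
      · rw [Finset.sum_filter_ne_zero]
        exact ha.2.2
    · rw [Finset.sum_filter]
      refine Finset.sum_congr rfl fun u _ => ?_
      split_ifs with h
      · rfl
      · push Not at h
        rw [h, zero_smul]

end Pool.Agent.K6.H24.CU
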