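import Pool.Agent.K6.H24.CU.Stm

set_option autoImplicit false
set_option linter.unusedSectionVars false

namespace Pool.Agent.K6.H24.CU

open Set

namespace HIN

variable {V : Type} [Fintype V] [DecidableEq V]

theorem prj_apply (v : V) (τ : Finset V) (x : V → ℝ) (i : V) :
    prj (LinearMap.proj v) (dirv v τ) x i = x i - x v * dirv v τ i := rfl

theorem dirv_v (v : V) (τ : Finset V) : dirv v τ v = 1 := by simp [dirv]

theorem dirv_mem (v : V) (τ : Finset V) (hv : v ∉ τ) (i : V) (hi : i ∈ τ) :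
    dirv v τ i = -(1 / (τ.card : ℝ)) := by
  have : i ≠ v := fun h => hv (h ▸ hi)
  simp [dirv, this, hi]

theorem dirv_out (v : V) (τ : Finset V) (i : V) (h1 : i ≠ v) (h2 : i ∉ τ) : dirv v τ i = 0 := by
  simp [dirv, h1, h2]

theorem sum_dirv (v : V) (τ : Finset V) (hτ : τ.Nonempty) (hv : v ∉ τ) : ∑ i, dirv v τ i = 0 := by
  have h1 : ∑ i, dirv v τ i = ∑ i ∈ insert v τ, dirv v τ i := by
    symm
    refine Finset.sum_subset (Finset.subset_univ _) fun i _ hi => ?_
    have h2 : i ≠ v := fun h => hi (by simp [h])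
    have h3 : i ∉ τ := fun h => hi (Finset.mem_insert_of_mem h)
    exact dirv_out v τ i h2 h3
  rw [h1, Finset.sum_insert hv, dirv_v, Finset.sum_congr rfl (fun i hi => dirv_mem v τ hv i hi),
    Finset.sum_const, nsmul_eq_mul]
  have : (τ.card : ℝ) ≠ 0 := by
    have := hτ.card_pos
    positivity
  field_simp
  ring

theorem mem_iff (v : V) (τ : Finset V) (x : V → ℝ) : x ∈ spx (insert v τ) ↔
    (∀ i, 0 ≤ x i) ∧ (∀ i, i ≠ v → i ∉ τ → x i = 0) ∧ ∑ i, x i = 1 := by
  constructor
  · rintro ⟨h1, h2, h3⟩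
    exact ⟨h1, fun i hi hi' => h2 i (by simp [hi, hi']), h3⟩
  · rintro ⟨h1, h2, h3⟩
    refine ⟨h1, fun i hi => ?_, h3⟩
    rw [Finset.mem_insert, not_or] at hi
    exact h2 i hi.1 hi.2

end HIN

theorem P_HIN : S_HIN := by
  classical
  intro V _ _ v τ hτ hv
  have hm : (0 : ℝ) < τ.card := by exact_mod_cast hτ.card_pos
  refine ⟨fun x hx => ?_, fun x hx y hy hy0 hxy => ?_, fun x hx => ?_⟩
  · rw [HIN.mem_iff] at hx ⊢
    obtain ⟨h1, h2, h3⟩ := hx
    refine ⟨fun i => ?_, fun i hi hi' => ?_, ?_⟩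
    · rw [HIN.prj_apply]
      by_cases hiv : i = v
      · subst hiv; rw [HIN.dirv_v]; simp
      · by_cases hiτ : i ∈ τ
        · rw [HIN.dirv_mem v τ hv i hiτ]
          have := h1 i
          have h4 := h1 v
          have h5 : 0 ≤ x v * (1 / (τ.card : ℝ)) := by positivity
          linarith
        · rw [HIN.dirv_out v τ i hiv hiτ]
          have := h1 i
          linarith
    · rw [HIN.prj_apply, HIN.dirv_out v τ i hi hi', h2 i hi hi']
      ring
    · simp only [HIN.prj_apply]
      rw [Finset.sum_sub_distrib, ← Finset.mul_sum, HIN.sum_dirv v τ hτ hv, h3]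
      ring
  · obtain ⟨i, hi, hyi⟩ := hy0
    rw [HIN.mem_iff] at hx
    have h1 := congrFun hxy i
    rw [HIN.prj_apply, HIN.prj_apply, HIN.dirv_mem v τ hv i hi, hyi] at h1
    have h2 := hx.1 i
    have h3 : (x v - y v) * (1 / (τ.card : ℝ)) ≤ 0 := by linarith
    have h4 : 0 < 1 / (τ.card : ℝ) := by positivity
    by_contra h5
    push Not at h5
    have : 0 < (x v - y v) * (1 / (τ.card : ℝ)) := mul_pos (by linarith) h4
    linarith
  · obtain ⟨i, hi, hmin⟩ := Finset.exists_min_image τ x hτ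
    rw [HIN.mem_iff] at hx
    obtain ⟨h1, h2, h3⟩ := hx
    set t : ℝ := τ.card * x i with ht
    have ht0 : 0 ≤ t := mul_nonneg hm.le (h1 i)
    have key : ∀ j, (x + t • dirv v τ) j = x j + t * dirv v τ j := fun j => rfl
    have hti : t * (1 / (τ.card : ℝ)) = x i := by
      rw [ht]; field_simp
    refine ⟨x + t • dirv v τ, ?_, ⟨i, hi, ?_⟩, ?_⟩
    · rw [HIN.mem_iff]
      refine ⟨fun j => ?_, fun j hj hj' => ?_, ?_⟩
      · rw [key]
        by_cases hjv : j = v
        · subst hjv; rw [HIN.dirv_v]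
          have := h1 j
          linarith
        · by_cases hjτ : j ∈ τ
          · rw [HIN.dirv_mem v τ hv j hjτ]
            have := hmin j hjτ
            linarith
          · rw [HIN.dirv_out v τ j hjv hjτ]
            have := h1 j
            linarith
      · rw [key, HIN.dirv_out v τ j hj hj', h2 j hj hj']
        ring
      · simp only [key]
        rw [Finset.sum_add_distrib, ← Finset.mul_sum, HIN.sum_dirv v τ hτ hv, h3]
        ring
    · rw [key, HIN.dirv_mem v τ hv i hi]
      linarith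
    · funext j
      rw [HIN.prj_apply, HIN.prj_apply, key, key, HIN.dirv_v]
      ring

end Pool.Agent.K6.H24.CU
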