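import Pool.Agent.K6.H24.CU.Stm

/-!
Piece IMG (helper13): images of cells under a vertex map.
-/

namespace Pool.Agent.K6.H24.CU

namespace IMG

theorem push {E : Type} [DecidableEq E] [AddCommGroup E] [Module ℝ E] (s t : Finset E)
    (g : E → E) (hg : ∀ p ∈ t, g p ∈ s) (c : E → ℝ) (h : E → E) :
    ∑ l ∈ s, (∑ p ∈ t with g p = l, c p) = ∑ p ∈ t, c p ∧
    ∑ l ∈ s, (∑ p ∈ t with g p = l, c p) • h l = ∑ p ∈ t, c p • h (g p) := by
  refine ⟨Finset.sum_fiberwise_of_maps_to hg c, ?_⟩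
  rw [← Finset.sum_fiberwise_of_maps_to hg (fun p => c p • h (g p))]
  refine Finset.sum_congr rfl fun l _ => ?_
  rw [Finset.sum_smul]
  refine Finset.sum_congr rfl fun p hp => ?_
  rw [(Finset.mem_filter.1 hp).2]

end IMG

open IMG in
theorem P_IMG : S_IMG := by
  intro E _ _ _ f s
  have h3 : ∀ (w : E) (b : E → ℝ) (θ : ℝ), (∀ u, 0 ≤ b u) → (∀ u, u ∉ s → b u = 0) → 0 ≤ θ →
      (∑ u ∈ s, b u) + θ = 1 → ∑ l ∈ s, b l • f l + θ • w ∈ cell (insert w (s.image f)) := by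
    intro w b θ hb0 _ hθ hsum
    obtain ⟨p1, p2⟩ := push (insert w (s.image f)) s f
      (fun p hp => Finset.mem_insert_of_mem (Finset.mem_image_of_mem f hp)) b id
    refine ⟨fun u => (∑ l ∈ s with f l = u, b l) + if u = w then θ else 0,
      ⟨fun u => ?_, fun u hu => ?_, ?_⟩, ?_⟩
    · refine add_nonneg (Finset.sum_nonneg fun l _ => hb0 l) ?_
      split_ifs
      · exact hθ
      · exact le_rfl
    · rw [Finset.mem_insert, not_or] at hu
      dsimp only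
      rw [if_neg hu.1, add_zero]
      refine Finset.sum_eq_zero fun l hl => ?_
      rw [Finset.mem_filter] at hl
      exact absurd (Finset.mem_image.2 ⟨l, hl.1, hl.2⟩) hu.2
    · rw [Finset.sum_add_distrib, p1, Finset.sum_ite_eq', if_pos (Finset.mem_insert_self _ _)]
      exact hsum
    · simp only [add_smul, ite_smul, zero_smul]
      rw [Finset.sum_add_distrib, Finset.sum_ite_eq', if_pos (Finset.mem_insert_self _ _)]
      congr 1
  have h2 : ∀ t, t ⊆ s.image f → ∀ c : E → ℝ, (∀ u, 0 ≤ c u) → ∃ b : E → ℝ, (∀ u, 0 ≤ b u) ∧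
      (∀ u, u ∉ s → b u = 0) ∧ ∑ u ∈ s, b u = ∑ u ∈ t, c u ∧
      ∑ l ∈ s, b l • f l = ∑ u ∈ t, c u • u := by
    intro t ht c hc
    have : ∀ p ∈ t, ∃ l, l ∈ s ∧ f l = p := fun p hp => Finset.mem_image.1 (ht hp)
    choose! g hg using this
    obtain ⟨p1, p2⟩ := push s t g (fun p hp => (hg p hp).1) c f
    refine ⟨fun l => ∑ p ∈ t with g p = l, c p, fun u => Finset.sum_nonneg fun l _ => hc l,
      fun u hu => ?_, p1, ?_⟩
    · refine Finset.sum_eq_zero fun p hp => ?_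
      rw [Finset.mem_filter] at hp
      rw [← hp.2] at hu
      exact absurd (hg p hp.1).1 hu
    · rw [p2]
      exact Finset.sum_congr rfl fun p hp => by rw [(hg p hp).2]
  have h2' : ∀ t, t ⊆ s.image f → ∀ x ∈ cell t, ∃ a, Bary s a ∧ ∑ l ∈ s, a l • f l = x := by
    rintro t ht x ⟨c, ⟨hc0, -, hc2⟩, hc3⟩
    obtain ⟨b, hb0, hb1, hb2, hb3⟩ := h2 t ht c hc0
    exact ⟨b, ⟨hb0, hb1, by rw [hb2, hc2]⟩, by rw [hb3, hc3]⟩
  refine ⟨?_, h2', h3, ?_⟩
  · rintro a ⟨ha0, -, ha2⟩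
    obtain ⟨p1, p2⟩ := push (s.image f) s f (fun p hp => Finset.mem_image_of_mem f hp) a id
    refine ⟨fun u => ∑ l ∈ s with f l = u, a l, ⟨fun u => Finset.sum_nonneg fun l _ => ha0 l,
      fun u hu => ?_, by rw [← ha2]; exact p1⟩, p2⟩
    refine Finset.sum_eq_zero fun l hl => ?_
    rw [Finset.mem_filter] at hl
    exact absurd (Finset.mem_image.2 ⟨l, hl.1, hl.2⟩) hu
  · intro w t ht x hx
    by_cases hw : w ∈ t
    · rw [Finset.insert_eq_of_mem hw] at hx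
      obtain ⟨a, ⟨ha0, ha1, ha2⟩, ha3⟩ := h2' t ht x hx
      exact ⟨a, 0, ha0, ha1, le_rfl, by rw [add_zero, ha2], by rw [zero_smul, add_zero, ha3]⟩
    · obtain ⟨c, ⟨hc0, hc1, hc2⟩, hc3⟩ := hx
      rw [Finset.sum_insert hw] at hc2 hc3
      obtain ⟨b, hb0, hb1, hb2, hb3⟩ := h2 t ht c hc0
      exact ⟨b, c w, hb0, hb1, hc0 w, by rw [hb2]; linarith, by rw [hb3, add_comm, hc3]⟩

end Pool.Agent.K6.H24.CU
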