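import Pool.Agent.K6.H24.CU.P_VIS

namespace Pool.Agent.K6.H24.CU

open Set P_VIS

theorem P_LOW (h : S_IMG) : S_LOW := by
  intro E _ _ _ S₀ P ht d A hp u huA s hs hsP hus t hts z hz
  have hd := hp.htd
  obtain ⟨b, θ, hb0, hbs, hθ, hsum, hbz⟩ := (h E (lft ht d A) s).2.2.2 (prj ht d u) t hts z hz
  set a : E → ℝ := fun l => b l + if l = u then θ else 0 with hadef
  have ha : Bary s a := by
    refine ⟨fun l => ?_, fun l hl => ?_, ?_⟩
    · simp only [hadef]
      have := hb0 l
      split_ifs <;> linarith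
    · simp only [hadef]
      rw [hbs l hl, if_neg (by rintro rfl; exact hl hus)]
      ring
    · have h1 := sum_add_ite (M := ℝ) s u hus b θ (fun _ => 1)
      simp only [smul_eq_mul, mul_one] at h1
      simp only [hadef]
      rw [h1, hsum]
  have hpz : prj ht d z = ∑ l ∈ s, a l • prj ht d l := by
    rw [← hbz, prj_add, prj_smul, prj_prj ht d hd, prj_sum_lft ht d hd]
    simp only [hadef]
    rw [sum_add_ite s u hus b θ (fun l => prj ht d l)]
  have hhz : ht z = ∑ l ∈ s \ A, b l * ht l := by
    rw [← hbz, map_add, map_smul, ht_prj ht d hd, ht_sum_lft ht d hd]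
    simp
  have hzP : z ∈ P := by
    -- view as a convex combination over `Option`
    have hzero : ∀ l ∈ s, lft ht d A l ∈ P := fun l hl => lft_mem hp.hP A l (hsP l hl)
    have huP : prj ht d u ∈ P := hp.hP u (hsP u hus)
    by_cases hθ1 : θ = 1
    · have hb1 : ∑ l ∈ s, b l = 0 := by linarith
      have hb2 : ∀ l ∈ s, b l = 0 := (Finset.sum_eq_zero_iff_of_nonneg (fun l _ => hb0 l)).mp hb1
      have : ∑ l ∈ s, b l • lft ht d A l = 0 :=
        Finset.sum_eq_zero (fun l hl => by rw [hb2 l hl, zero_smul])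
      rw [← hbz, this, hθ1, zero_add, one_smul]
      exact huP
    · have hbn : 0 ≤ ∑ l ∈ s, b l := Finset.sum_nonneg (fun l _ => hb0 l)
      have hθlt : θ < 1 := lt_of_le_of_ne (by linarith) hθ1
      have hpos : 0 < 1 - θ := by linarith
      have hy : ∑ l ∈ s, ((1 - θ)⁻¹ * b l) • lft ht d A l ∈ P := by
        apply hp.conv.sum_mem
        · intro l _
          exact mul_nonneg (inv_nonneg.mpr hpos.le) (hb0 l)
        · rw [← Finset.mul_sum]
          have : ∑ l ∈ s, b l = 1 - θ := by linarith
          rw [this]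
          exact inv_mul_cancel₀ hpos.ne'
        · exact hzero
      have := hp.conv hy huP hpos.le hθ (by ring)
      rw [← hbz]
      convert this using 2
      rw [Finset.smul_sum]
      apply Finset.sum_congr rfl
      intro l _
      rw [smul_smul, ← mul_assoc, mul_inv_cancel₀ hpos.ne', one_mul]
  refine ⟨hzP, a, ha, hpz, ?_⟩
  rw [hhz]
  have h1 : ∑ l ∈ s \ insert u A, a l * ht l = ∑ l ∈ s \ insert u A, b l * ht l := by
    apply Finset.sum_congr rfl
    intro l hl
    have : l ≠ u := by
      rintro rfl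
      exact (Finset.mem_sdiff.mp hl).2 (Finset.mem_insert_self _ _)
    simp only [hadef]
    rw [if_neg this, add_zero]
  rw [h1]
  apply Finset.sum_le_sum_of_subset_of_nonneg
  · intro l hl
    rw [Finset.mem_sdiff] at hl ⊢
    exact ⟨hl.1, fun hA => hl.2 (Finset.mem_insert_of_mem hA)⟩
  · intro l hl _
    exact mul_nonneg (hb0 l) (hp.pos l (hsP l (Finset.mem_sdiff.mp hl).1))

end Pool.Agent.K6.H24.CU
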