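import Pool.Agent.K6.H24.CU.Stm

namespace Pool.Agent.K6.H24.CU

open Set

theorem P_PRI (hSTP : S_STP) (hIMG : S_IMG) : S_PRI := by
  intro E _ _ S₀ P ht d hP
  classical
  set L : Finset E := (S₀.biUnion id).filter (fun u => u ∈ P ∧ 0 < ht u) with hL
  have hLmem : ∀ u, u ∈ L ↔ ((∃ s ∈ S₀, u ∈ s) ∧ u ∈ P ∧ 0 < ht u) := by
    intro u
    simp [hL]
  have hbase : Inv S₀ P ht d ∅ S₀ := by
    have hid : lft ht d (∅ : Finset E) = id := by
      funext x
      simp [lft]
    refine ⟨hP.geo, hP.cc, le_rfl, ?_, fun t ht' => Or.inl ht', fun t ht' z hz =>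
      Or.inl ⟨t, ht', hz⟩, ?_⟩
    · intro s hs hsP
      rw [hid, Finset.image_id]
      exact hs
    · intro s hs hsP a ha x hx h1 h2
      refine ⟨s, hs, hsP, a, ha, ?_⟩
      rw [Finset.sdiff_empty] at h1
      have h3 : ht x = ∑ l ∈ s, a l * ht l := le_antisymm h2 h1
      have h4 : x = prj ht d x + ht x • d := by simp [prj]
      rw [h4, hx, h3, Finset.sum_smul, ← Finset.sum_add_distrib]
      refine Finset.sum_congr rfl fun l _ => ?_
      simp only [prj, smul_sub, mul_smul]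
      abel
  have hstep : ∀ A : Finset E, A ⊆ L → ∃ S, Inv S₀ P ht d A S := by
    intro A
    induction A using Finset.induction_on with
    | empty => exact fun _ => ⟨S₀, hbase⟩
    | insert u A huA ih =>
      intro hAL
      obtain ⟨S, hS⟩ := ih ((Finset.subset_insert u A).trans hAL)
      obtain ⟨⟨s, hs, hus⟩, huP, hu0⟩ := (hLmem u).mp (hAL (Finset.mem_insert_self u A))
      exact hSTP E S₀ P ht d A S hP hS u huA hu0
        (hP.geo.1.2 s hs {u} (by simpa using hus)) huP
  obtain ⟨S, hS⟩ := hstep L le_rfl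
  have hzero : ∀ s ∈ S₀, (∀ u ∈ s, u ∈ P) → ∀ l ∈ s, l ∉ L → ht l = 0 := by
    intro s hs hsP l hl hlL
    by_contra hne
    exact hlL ((hLmem l).mpr ⟨⟨s, hs, hl⟩, hsP l hl, lt_of_le_of_ne (hP.pos l (hsP l hl))
      (Ne.symm hne)⟩)
  refine ⟨S, hS.geo, hS.cc, hS.sub, hS.dich, ?_, ?_⟩
  · intro x hx
    obtain ⟨s, hs, hsP, a, ha, hax, hle⟩ := hP.ex x hx
    refine hS.fill s hs hsP a ha x hax ?_ hle
    have : ∑ l ∈ s \ L, a l * ht l = 0 := by
      refine Finset.sum_eq_zero fun l hl => ?_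
      obtain ⟨h1, h2⟩ := Finset.mem_sdiff.mp hl
      rw [hzero s hs hsP l h1 h2, mul_zero]
    rw [this]
    exact hP.pos x hx
  · intro x hx hx0
    obtain ⟨s, hs, hsP, a, ha, hax, hle⟩ := hP.ex x hx
    refine ⟨s.image (lft ht d L), hS.img s hs hsP, ?_, ?_⟩
    · intro u hu
      obtain ⟨l, hl, rfl⟩ := Finset.mem_image.mp hu
      by_cases hlL : l ∈ L
      · have : lft ht d L l = prj ht d l := by simp [lft, hlL]
        rw [this]
        refine ⟨hP.hP l (hsP l hl), ?_⟩
        simp [prj, hP.htd]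
      · have : lft ht d L l = l := by simp [lft, hlL]
        rw [this]
        exact ⟨hsP l hl, hzero s hs hsP l hl hlL⟩
    · have h1 := (hIMG E (lft ht d L) s).1 a ha
      have h2 : x = ∑ l ∈ s, a l • lft ht d L l := by
        have h3 : x = prj ht d x := by simp [prj, hx0]
        rw [h3, hax]
        refine Finset.sum_congr rfl fun l hl => ?_
        by_cases hlL : l ∈ L
        · simp [lft, hlL]
        · simp [lft, hlL, prj, hzero s hs hsP l hl hlL]
      rw [h2]
      exact h1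

end Pool.Agent.K6.H24.CU
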