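import Pool.Agent.K6.H24.CU.Stm

set_option autoImplicit false

namespace Pool.Agent.K6.H24.CU

open Set

namespace REA

/-- push forward a weight -/
noncomputable def push {I E : Type} [DecidableEq E] (p : I → E) (t : Finset I) (c : I → ℝ) (e : E) :
    ℝ := ∑ i ∈ t, if p i = e then c i else 0

theorem push_sum {I E : Type} [DecidableEq E] [AddCommGroup E] [Module ℝ E] (p : I → E)
    (t : Finset I) (c : I → ℝ) (T : Finset E) (hT : ∀ i ∈ t, p i ∈ T) :
    ∑ e ∈ T, push p t c e • e = ∑ i ∈ t, c i • p i := by
  unfold push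
  simp_rw [Finset.sum_smul]
  rw [Finset.sum_comm]
  refine Finset.sum_congr rfl fun i hi => ?_
  rw [Finset.sum_eq_single (p i)]
  · simp
  · intro e _ he
    rw [if_neg (fun h => he h.symm), zero_smul]
  · intro h
    exact absurd (hT i hi) h

theorem push_bary {I E : Type} [DecidableEq E] (p : I → E)
    (t : Finset I) (c : I → ℝ) (T : Finset E) (hT : ∀ i ∈ t, p i ∈ T) (h0 : ∀ i ∈ t, 0 ≤ c i)
    (h1 : ∑ i ∈ t, c i = 1) : Bary T (push p t c) := by
  refine ⟨fun e => ?_, fun e he => ?_, ?_⟩
  · refine Finset.sum_nonneg fun i hi => ?_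
    split_ifs
    · exact h0 i hi
    · exact le_refl _
  · refine Finset.sum_eq_zero fun i hi => ?_
    rw [if_neg]
    intro h
    exact he (h ▸ hT i hi)
  · unfold push
    rw [Finset.sum_comm, ← h1]
    refine Finset.sum_congr rfl fun i hi => ?_
    rw [Finset.sum_eq_single (p i)]
    · simp
    · intro e _ he
      rw [if_neg (fun h => he h.symm)]
    · intro h
      exact absurd (hT i hi) h

theorem push_apply {I E : Type} [DecidableEq E] (p : I → E) (hp : Function.Injective p)
    (t : Finset I) (c : I → ℝ) (i : I) (hi : i ∈ t) : push p t c (p i) = c i := by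
  unfold push
  rw [Finset.sum_eq_single i]
  · simp
  · intro j _ hj
    rw [if_neg (fun h => hj (hp h))]
  · intro h
    exact absurd hi h

end REA

theorem P_REA : S_REA := by
  classical
  intro W E _ _ _ Y q S hq hS hY
  refine ⟨fun s hs => ?_, fun s hs t ht => ?_⟩
  · rw [affineIndependent_iff]
    intro t w hw0 hw1
    set p : {i // i ∈ s} → E := fun i => q i.1 with hp
    have hpi : Function.Injective p := fun i j hij => Subtype.ext (hq hij)
    have hT : ∀ i ∈ t, p i ∈ s.image q := fun i _ => Finset.mem_image_of_mem q i.2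
    set P := ∑ i ∈ t, max (w i) 0 with hP
    have hPQ : ∑ i ∈ t, max (-w i) 0 = P := by
      have h1 : ∑ i ∈ t, (max (w i) 0 - max (-w i) 0) = ∑ i ∈ t, w i := by
        refine Finset.sum_congr rfl fun i _ => ?_
        rcases le_total (w i) 0 with h | h
        · rw [max_eq_right h, max_eq_left (by linarith)]; ring
        · rw [max_eq_left h, max_eq_right (by linarith)]; ring
      rw [Finset.sum_sub_distrib, hw0] at h1
      linarith
    have hP0 : 0 ≤ P := Finset.sum_nonneg fun i _ => le_max_right _ _
    rcases hP0.eq_or_lt with h0 | hpos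
    · intro e he
      have h1 := (Finset.sum_eq_zero_iff_of_nonneg (fun i _ => le_max_right _ _)).1 (hP ▸ h0.symm) e he
      have h2 := (Finset.sum_eq_zero_iff_of_nonneg
        (fun i (_ : i ∈ t) => le_max_right (-w i) 0)).1 (hPQ.trans h0.symm) e he
      have h3 : w e ≤ 0 := (le_max_left _ _).trans h1.le
      have h4 : -w e ≤ 0 := (le_max_left _ _).trans h2.le
      linarith
    · intro e he
      have ha := REA.push_bary p t (fun i => max (w i) 0 / P) (s.image q) hT
        (fun i _ => div_nonneg (le_max_right _ _) hpos.le)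
        (by rw [← Finset.sum_div, ← hP, div_self hpos.ne'])
      have hb := REA.push_bary p t (fun i => max (-w i) 0 / P) (s.image q) hT
        (fun i _ => div_nonneg (le_max_right _ _) hpos.le)
        (by rw [← Finset.sum_div, hPQ, div_self hpos.ne'])
      have heq : ∑ u ∈ s.image q, REA.push p t (fun i => max (w i) 0 / P) u • u =
          ∑ u ∈ s.image q, REA.push p t (fun i => max (-w i) 0 / P) u • u := by
        rw [REA.push_sum p t _ _ hT, REA.push_sum p t _ _ hT, ← sub_eq_zero,
          ← Finset.sum_sub_distrib]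
        have h1 : ∑ i ∈ t, ((max (w i) 0 / P) • p i - (max (-w i) 0 / P) • p i) =
            P⁻¹ • ∑ i ∈ t, w i • p i := by
          rw [Finset.smul_sum]
          refine Finset.sum_congr rfl fun i _ => ?_
          rw [← sub_smul, smul_smul]
          congr 1
          rcases le_total (w i) 0 with h | h
          · rw [max_eq_right h, max_eq_left (by linarith)]; ring
          · rw [max_eq_left h, max_eq_right (by linarith)]; ring
        rw [h1, hw1, smul_zero]
      have hab := hS.2 _ (hY s hs) _ (hY s hs) _ _ ha hb heq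
      have h1 := congrFun hab (p e)
      rw [REA.push_apply p hpi t _ e he, REA.push_apply p hpi t _ e he,
        div_left_inj' hpos.ne'] at h1
      rcases le_total (w e) 0 with h | h
      · rw [max_eq_right h, max_eq_left (by linarith)] at h1; linarith
      · rw [max_eq_left h, max_eq_right (by linarith)] at h1; linarith
  · rintro x ⟨hx1, hx2⟩
    have e1 : ∀ r : Finset W, q '' {i | i ∈ r} = ((r.image q : Finset E) : Set E) := by
      intro r; ext y; simp
    rw [e1, Finset.mem_convexHull'] at hx1 hx2
    obtain ⟨a, ha0, ha1, ha2⟩ := hx1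
    obtain ⟨b, hb0, hb1, hb2⟩ := hx2
    have mk : ∀ (T : Finset E) (a : E → ℝ), (∀ y ∈ T, 0 ≤ a y) → ∑ y ∈ T, a y = 1 →
        Bary T (fun e => if e ∈ T then a e else 0) ∧
          ∑ u ∈ T, (if u ∈ T then a u else 0) • u = ∑ u ∈ T, a u • u := by
      intro T a h0 h1
      refine ⟨⟨fun u => ?_, fun u hu => by simp [hu], ?_⟩, ?_⟩
      · dsimp only
        split_ifs with h
        · exact h0 u h
        · exact le_refl _
      · rw [← h1]
        exact Finset.sum_congr rfl fun u hu => by simp [hu]
      · exact Finset.sum_congr rfl fun u hu => by simp [hu]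
    obtain ⟨A1, A2⟩ := mk _ a ha0 ha1
    obtain ⟨B1, B2⟩ := mk _ b hb0 hb1
    have hab := hS.2 _ (hY s hs) _ (hY t ht) _ _ A1 B1 (by rw [A2, B2, ha2, hb2])
    have hsupp : ∀ e ∈ s.image q, e ∉ t.image q → a e = 0 := by
      intro e he he'
      have := congrFun hab e
      simpa [he, he'] using this
    have e2 : q '' {i | i ∈ s ∧ i ∈ t} = (((s ∩ t).image q : Finset E) : Set E) := by
      ext y; simp
    rw [e2, Finset.mem_convexHull']
    have hsub : (s ∩ t).image q ⊆ s.image q := Finset.image_subset_image Finset.inter_subset_left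
    have hz : ∀ e ∈ s.image q, e ∉ (s ∩ t).image q → a e = 0 := by
      intro e he he'
      apply hsupp e he
      intro h2
      obtain ⟨i, hi, rfl⟩ := Finset.mem_image.1 he
      obtain ⟨j, hj, hji⟩ := Finset.mem_image.1 h2
      have : j = i := hq hji
      subst this
      exact he' (Finset.mem_image_of_mem q (Finset.mem_inter.2 ⟨hi, hj⟩))
    refine ⟨a, fun y hy => ha0 y (hsub hy), ?_, ?_⟩
    · rw [← ha1]
      exact Finset.sum_subset hsub hz
    · rw [← ha2]
      exact Finset.sum_subset hsub fun e he he' => by rw [hz e he he', zero_smul]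

end Pool.Agent.K6.H24.CU
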