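import Pool.Agent.K6.H24.CU.Stm

/-!
Piece SPX (helper13): the standard simplex as a convex hull.
-/

namespace Pool.Agent.K6.H24.CU

theorem P_SPX : S_SPX := by
  intro V _ _ F
  apply Set.Subset.antisymm
  · apply convexHull_min
    · rintro _ ⟨v, hv, rfl⟩
      refine ⟨fun i => ?_, fun i hi => ?_, ?_⟩
      · by_cases h : i = v
        · subst h; simp
        · simp [h]
      · have : i ≠ v := by rintro rfl; exact hi hv
        simp [this]
      · simp
    · rintro x ⟨hx0, hx1, hx2⟩ y ⟨hy0, hy1, hy2⟩ a b ha hb hab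
      refine ⟨fun i => ?_, fun i hi => ?_, ?_⟩
      · exact add_nonneg (mul_nonneg ha (hx0 i)) (mul_nonneg hb (hy0 i))
      · simp [hx1 i hi, hy1 i hi]
      · simp only [Pi.add_apply, Pi.smul_apply, smul_eq_mul]
        rw [Finset.sum_add_distrib, ← Finset.mul_sum, ← Finset.mul_sum, hx2, hy2]
        linarith
  · rintro x ⟨hx0, hx1, hx2⟩
    have hx : x = ∑ i ∈ F, x i • (Pi.single i 1 : V → ℝ) := by
      funext j
      rw [Finset.sum_apply]
      simp only [Pi.smul_apply, smul_eq_mul, Pi.single_apply, mul_ite, mul_one, mul_zero]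
      rw [Finset.sum_ite_eq]
      split_ifs with h
      · rfl
      · exact hx1 j h
    rw [hx]
    refine (convex_convexHull ℝ _).sum_mem (fun i _ => hx0 i) ?_ fun i hi => ?_
    · rw [← hx2]
      exact Finset.sum_subset (Finset.subset_univ F) fun i _ hi => hx1 i hi
    · exact subset_convexHull ℝ _ ⟨i, hi, rfl⟩

end Pool.Agent.K6.H24.CU
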