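import Pool.Agent.K6.H24.CU.P_SPX

/-!
Piece STD (helper13): the standard realization.
-/

namespace Pool.Agent.K6.H24.CU

theorem P_STD : S_STD := by
  intro V _ _ X
  refine ⟨fun s _ => ?_, fun s _ t _ => ?_⟩
  · have h1 : LinearIndependent ℝ (fun v : V => (Pi.single v 1 : V → ℝ)) := by
      have := (Pi.basisFun ℝ V).linearIndependent
      convert! this using 1
      funext v
      exact (Pi.basisFun_apply ℝ V v).symm
    exact (h1.comp (fun i : {i // i ∈ s} => i.1) Subtype.val_injective).affineIndependent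
  · have h1 : {i | i ∈ s ∧ i ∈ t} = {i | i ∈ s ∩ t} := by
      ext i; simp
    rw [h1, P_SPX V s, P_SPX V t, P_SPX V (s ∩ t)]
    rintro x ⟨⟨h0, h1, h2⟩, ⟨-, h3, -⟩⟩
    refine ⟨h0, fun i hi => ?_, h2⟩
    by_cases hs : i ∈ s
    · exact h3 i fun ht => hi (Finset.mem_inter.2 ⟨hs, ht⟩)
    · exact h1 i hs

end Pool.Agent.K6.H24.CU
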