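import Pool.Agent.K6.H24.CU.Stm

namespace Pool.Agent.K6.H24.CU

open Set

theorem self_mem_cell {E : Type} [AddCommGroup E] [Module ℝ E] (w : E) : w ∈ cell ({w} : Finset E) := by
  classical
  refine ⟨fun x => if x = w then 1 else 0, ⟨fun x => ?_, fun x hx => ?_, by simp⟩, by simp⟩
  · beta_reduce; split_ifs <;> norm_num
  · have : x ≠ w := by simpa using hx
    simp [this]

theorem P_STP (hADD : S_ADD) (hCAL : S_CAL) (hVIS : S_VIS) (hLOW : S_LOW) (hFIL : S_FIL) :
    S_STP := by
  intro E _ _ _ S₀ P ht d A S hP hI u huA hu0 huS huP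
  have hlft : ∀ x ∈ P, lft ht d A x ∈ P := by
    intro x hx
    unfold lft
    split_ifs
    · exact hP.hP x hx
    · exact hx
  have hlu : lft ht d A u = u := by simp [lft, huA]
  classical
  set w := prj ht d u with hw
  set B : Finset (Finset E) := S.filter
    (fun t => ∃ s ∈ S₀, (∀ l ∈ s, l ∈ P) ∧ u ∈ s ∧ t ⊆ s.image (lft ht d A)) with hB
  have hBS : B ⊆ S := Finset.filter_subset _ _
  have hBP : ∀ t ∈ B, ∀ x ∈ t, x ∈ P := by
    intro t htB x hx
    obtain ⟨-, s, hs, hsP, hus, hts⟩ := Finset.mem_filter.mp htB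
    obtain ⟨l, hl, rfl⟩ := Finset.mem_image.mp (hts hx)
    exact hlft l (hsP l hl)
  have hBc : IsCpx B := by
    refine ⟨?_, ?_⟩
    · refine Finset.mem_filter.mpr ⟨hI.geo.1.1, {u}, huS, by simpa using huP, by simp, by simp⟩
    · intro t htB r hr
      obtain ⟨h1, s, hs, hsP, hus, hts⟩ := Finset.mem_filter.mp htB
      exact Finset.mem_filter.mpr ⟨hI.geo.1.2 t h1 r hr, s, hs, hsP, hus, hr.trans hts⟩
  have hBd : ∀ t ∈ B, insert u t ∈ B := by
    intro t htB
    obtain ⟨h1, s, hs, hsP, hus, hts⟩ := Finset.mem_filter.mp htB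
    have h2 : insert u t ⊆ s.image (lft ht d A) := by
      intro x hx
      rcases Finset.mem_insert.mp hx with rfl | hx
      · exact Finset.mem_image.mpr ⟨x, hus, hlu⟩
      · exact hts hx
    exact Finset.mem_filter.mpr ⟨hI.geo.1.2 _ (hI.img s hs hsP) _ h2, s, hs, hsP, hus, h2⟩
  have huP' : ∀ l ∈ ({u} : Finset E), l ∈ P := by simpa using huP
  have hw1 : ∀ s ∈ S, w ∉ cell s := by
    intro s hs
    have h := hVIS E S₀ P ht d A S hP hI u huA hu0 {u} huS huP' (by simp) {u}
      (by rw [Finset.image_singleton, hlu]) u (self_mem_cell u) 1 one_pos le_rfl s hs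
    simpa [hw] using h
  have hwS : {w} ∉ S := fun h => hw1 _ h (self_mem_cell w)
  have hgeo : Geo (S ∪ B.image (insert w)) := by
    refine hCAL E S B w hI.geo hBS hBc hw1 ?_
    intro t htB y hy θ h0 h1 r hr
    obtain ⟨-, s, hs, hsP, hus, hts⟩ := Finset.mem_filter.mp htB
    exact hVIS E S₀ P ht d A S hP hI u huA hu0 s hs hsP hus t hts y hy θ h0 h1.le r hr
  have hcc : CC (S ∪ B.image (insert w)) :=
    hADD E S B u w hI.geo.1 hI.cc hBS hBc hBd hwS
  have hmono : ∀ s : Finset E, (∀ l ∈ s, l ∈ P) → ∀ a : E → ℝ, (∀ l, 0 ≤ a l) →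
      ∑ l ∈ s \ (insert u A), a l * ht l ≤ ∑ l ∈ s \ A, a l * ht l := by
    intro s hsP a ha
    refine Finset.sum_le_sum_of_subset_of_nonneg ?_ ?_
    · exact Finset.sdiff_subset_sdiff le_rfl (Finset.subset_insert u A)
    · intro l hl _
      exact mul_nonneg (ha l) (hP.pos l (hsP l (Finset.mem_sdiff.mp hl).1))
  refine ⟨S ∪ B.image (insert w), hgeo, hcc, hI.sub.trans Finset.subset_union_left, ?_, ?_, ?_, ?_⟩
  · intro s hs hsP
    by_cases hus : u ∈ s
    · refine Finset.mem_union_right _ (Finset.mem_image.mpr ⟨(s.erase u).image (lft ht d A), ?_, ?_⟩)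
      · have h2 : (s.erase u).image (lft ht d A) ⊆ s.image (lft ht d A) :=
          Finset.image_subset_image (Finset.erase_subset u s)
        exact Finset.mem_filter.mpr ⟨hI.geo.1.2 _ (hI.img s hs hsP) _ h2, s, hs, hsP, hus, h2⟩
      · have h3 : (s.erase u).image (lft ht d A) = (s.erase u).image (lft ht d (insert u A)) := by
          refine Finset.image_congr ?_
          intro x hx
          have hxu : x ≠ u := Finset.ne_of_mem_erase hx
          simp [lft, hxu]
        have h4 : w = lft ht d (insert u A) u := by simp [lft, hw]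
        rw [h3, h4, ← Finset.image_insert, Finset.insert_erase hus]
    · refine Finset.mem_union_left _ ?_
      have h3 : s.image (lft ht d (insert u A)) = s.image (lft ht d A) := by
        refine Finset.image_congr ?_
        intro x hx
        have hxu : x ≠ u := by rintro rfl; exact hus hx
        simp [lft, hxu]
      rw [h3]
      exact hI.img s hs hsP
  · intro t htS
    rcases Finset.mem_union.mp htS with h | h
    · exact hI.dich t h
    · right
      obtain ⟨t', ht', rfl⟩ := Finset.mem_image.mp h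
      intro x hx
      rcases Finset.mem_insert.mp hx with rfl | hx
      · exact hP.hP u huP
      · exact hBP t' ht' x hx
  · intro t htS z hz
    rcases Finset.mem_union.mp htS with h | h
    · rcases hI.low t h z hz with h | ⟨hzP, s, hs, hsP, a, ha, haz, hle⟩
      · exact Or.inl h
      · exact Or.inr ⟨hzP, s, hs, hsP, a, ha, haz, (hmono s hsP a ha.1).trans hle⟩
    · right
      obtain ⟨t', ht', rfl⟩ := Finset.mem_image.mp h
      obtain ⟨-, s, hs, hsP, hus, hts⟩ := Finset.mem_filter.mp ht'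
      obtain ⟨hzP, a, ha, haz, hle⟩ :=
        hLOW E S₀ P ht d A hP u huA s hs hsP hus t' hts z hz
      exact ⟨hzP, s, hs, hsP, a, ha, haz, hle⟩
  · intro s hs hsP a ha x hx h1 h2
    by_cases h3 : ∑ l ∈ s \ A, a l * ht l ≤ ht x
    · obtain ⟨t, htS, htP, hxt⟩ := hI.fill s hs hsP a ha x hx h3 h2
      exact ⟨t, Finset.mem_union_left _ htS, htP, hxt⟩
    · obtain ⟨hus, hxc⟩ := hFIL E S₀ P ht d A hP u huA s hs hsP a ha x hx h1 (not_le.mp h3)
      have hsB : s.image (lft ht d A) ∈ B :=
        Finset.mem_filter.mpr ⟨hI.img s hs hsP, s, hs, hsP, hus, le_rfl⟩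
      refine ⟨insert w (s.image (lft ht d A)), Finset.mem_union_right _
        (Finset.mem_image_of_mem _ hsB), ?_, hxc⟩
      intro y hy
      rcases Finset.mem_insert.mp hy with rfl | hy
      · exact hP.hP u huP
      · exact hBP _ hsB y hy

end Pool.Agent.K6.H24.CU
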