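import Pool.Agent.K6.H24.CU.Stm

/-!
# PIECE THK: thicken the compact sets to open sets
-/

set_option autoImplicit false

namespace Pool.Agent.K6.H24.CU

open Set Filter
open scoped Topology

namespace THK

/-- small thickenings of compact sets without a common point have no common point -/
theorem eventually_empty {V F : Type} [NormedAddCommGroup F] [NormedSpace ℝ F]
    [FiniteDimensional ℝ F] (K : V → Set F) (hK : ∀ i, IsCompact (K i)) (s : Finset V)
    (hs : s.Nonempty) (he : ¬ (⋂ i ∈ s, K i).Nonempty) :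
    ∀ᶠ e in 𝓝[>] (0 : ℝ), ¬ (⋂ i ∈ s, Metric.thickening e (K i)).Nonempty := by
  haveI : ProperSpace F := FiniteDimensional.proper_real F
  let C : ℕ → Set F := fun n => ⋂ i ∈ s, Metric.cthickening (1 / ((n : ℝ) + 1)) (K i)
  have hclosed : ∀ n, IsClosed (C n) := fun n =>
    isClosed_biInter fun i _ => Metric.isClosed_cthickening
  have hanti : ∀ n, C (n + 1) ⊆ C n := by
    intro n
    refine biInter_mono (Subset.refl _) fun i _ => Metric.cthickening_mono ?_ _
    push_cast
    exact one_div_le_one_div_of_le (by positivity) (by linarith)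
  have hcomp : IsCompact (C 0) := by
    obtain ⟨i, hi⟩ := hs
    have h1 : C 0 ⊆ Metric.cthickening (1 / (((0 : ℕ) : ℝ) + 1)) (K i) :=
      biInter_subset_of_mem (Finset.mem_coe.mpr hi)
    exact (hK i).cthickening.of_isClosed_subset (hclosed 0) h1
  have hex : ∃ n, ¬ (C n).Nonempty := by
    by_contra hcon
    push Not at hcon
    obtain ⟨x, hx⟩ := IsCompact.nonempty_iInter_of_sequence_nonempty_isCompact_isClosed C hanti
      hcon hcomp hclosed
    apply he
    refine ⟨x, ?_⟩
    rw [mem_iInter₂]
    intro i hi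
    have h1 : ∀ n : ℕ, x ∈ Metric.cthickening (1 / ((n : ℝ) + 1)) (K i) := by
      intro n
      have h2 := mem_iInter.mp hx n
      exact mem_iInter₂.mp h2 i hi
    have h2 : Metric.infEDist x (K i) = 0 := by
      refine le_antisymm ?_ bot_le
      have h3 : ∀ n : ℕ, Metric.infEDist x (K i) ≤ ENNReal.ofReal (1 / ((n : ℝ) + 1)) := fun n => h1 n
      have h4 : Tendsto (fun n : ℕ => ENNReal.ofReal (1 / ((n : ℝ) + 1))) atTop (𝓝 0) := by
        have := ENNReal.tendsto_ofReal tendsto_one_div_add_atTop_nhds_zero_nat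
        simpa using this
      exact ge_of_tendsto' h4 h3
    have h5 := Metric.mem_closure_iff_infEDist_zero.mpr h2
    rwa [(hK i).isClosed.closure_eq] at h5
  obtain ⟨n, hn⟩ := hex
  have hpos : (0 : ℝ) < 1 / ((n : ℝ) + 1) := by positivity
  filter_upwards [Ioo_mem_nhdsGT hpos] with e he' ⟨x, hx⟩
  apply hn
  refine ⟨x, ?_⟩
  rw [mem_iInter₂] at hx ⊢
  intro i hi
  exact Metric.thickening_subset_cthickening_of_le he'.2.le _ (hx i hi)

end THK

theorem P_THK : S_THK := by
  intro V _ X ⟨F, _, _, _, K, hc, hconv, hun, hX⟩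
  have hev : ∀ᶠ e in 𝓝[>] (0 : ℝ), ∀ s : Finset V, s.Nonempty → ¬ (⋂ i ∈ s, K i).Nonempty →
      ¬ (⋂ i ∈ s, Metric.thickening e (K i)).Nonempty := by
    rw [eventually_all]
    intro s
    by_cases hs : s.Nonempty
    · by_cases he : (⋂ i ∈ s, K i).Nonempty
      · exact Eventually.of_forall fun e _ h => (h he).elim
      · filter_upwards [THK.eventually_empty K hc s hs he] with e h _ _
        exact h
    · exact Eventually.of_forall fun e h => (hs h).elim
  obtain ⟨e, he, hpos⟩ := (hev.and self_mem_nhdsWithin).exists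
  have hpos' : (0 : ℝ) < e := hpos
  let L : F ≃L[ℝ] EuclideanSpace ℝ (Fin (Module.finrank ℝ F)) := toEuclidean
  refine ⟨Module.finrank ℝ F, fun i => L.symm ⁻¹' Metric.thickening e (K i), ?_, ?_, ?_, ?_⟩
  · intro i
    exact Metric.isOpen_thickening.preimage L.symm.continuous
  · intro i
    exact ((hconv i).thickening e).linear_preimage L.symm.toLinearEquiv.toLinearMap
  · rw [← preimage_iUnion, ← Metric.thickening_iUnion]
    exact (hun.thickening e).linear_preimage L.symm.toLinearEquiv.toLinearMap
  · intro s hs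
    have h1 : (⋂ i ∈ s, L.symm ⁻¹' Metric.thickening e (K i)) =
        L.symm ⁻¹' (⋂ i ∈ s, Metric.thickening e (K i)) := by
      simp only [preimage_iInter]
    rw [hX s hs, h1]
    constructor
    · rintro ⟨x, hx⟩
      refine ⟨L x, ?_⟩
      rw [mem_preimage, L.symm_apply_apply, mem_iInter₂]
      intro i hi
      exact Metric.self_subset_thickening hpos' _ (mem_iInter₂.mp hx i hi)
    · rintro ⟨x, hx⟩
      by_contra hcon
      exact he s hs hcon ⟨L.symm x, hx⟩

end Pool.Agent.K6.H24.CU
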