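import Pool.Agent.K6.H24.CU.Stm

set_option autoImplicit false

/-!
# TRA: passage to an abstract complex on `Fin n` (piece of helper37)
-/

namespace Pool.Agent.K6.H24.CU

open Set

theorem P_TRA (h1 : S_REA) (h2 : S_STD) (h3 : S_SPX) (h4 : S_CELL) : S_TRA := by
  intro V _ _ X S hgeo hcc hsub
  classical
  set T : Finset (V → ℝ) := S.biUnion id with hT
  set q : Fin T.card → (V → ℝ) := fun i => (T.equivFin.symm i : V → ℝ) with hq
  have hinj : Function.Injective q := fun i j h =>
    T.equivFin.symm.injective (Subtype.ext h)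
  have hmem : ∀ i, q i ∈ T := fun i => (T.equivFin.symm i).2
  have hsurj : ∀ e ∈ T, ∃ i, q i = e := fun e he =>
    ⟨T.equivFin ⟨e, he⟩, by simp [hq]⟩
  have hTm : ∀ s ∈ S, ∀ e ∈ s, e ∈ T := fun s hs e he => by
    rw [hT, Finset.mem_biUnion]
    exact ⟨s, hs, he⟩
  set Y : Finset (Finset (Fin T.card)) := Finset.univ.filter (fun t => t.image q ∈ S) with hY
  have hYm : ∀ t, t ∈ Y ↔ t.image q ∈ S := fun t => by
    rw [hY, Finset.mem_filter]
    exact ⟨fun h => h.2, fun h => ⟨Finset.mem_univ _, h⟩⟩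
  have hpre : ∀ s ∈ S, ∃ t ∈ Y, t.image q = s := by
    intro s hs
    have he : (Finset.univ.filter (fun i => q i ∈ s)).image q = s := by
      ext e
      rw [Finset.mem_image]
      constructor
      · rintro ⟨i, hi, rfl⟩
        exact (Finset.mem_filter.1 hi).2
      · intro h
        obtain ⟨i, rfl⟩ := hsurj e (hTm s hs e h)
        exact ⟨i, Finset.mem_filter.2 ⟨Finset.mem_univ _, h⟩, rfl⟩
    refine ⟨Finset.univ.filter (fun i => q i ∈ s), ?_, he⟩
    rw [hYm, he]
    exact hs
  have hcell : ∀ t : Finset (Fin T.card),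
      convexHull ℝ (q '' {i | i ∈ t}) = cell (t.image q) := by
    intro t
    rw [h4 (V → ℝ) (t.image q), Finset.coe_image]
    rfl
  refine ⟨T.card, Y, fun i => ?_, ⟨?_, fun s hs t hts => ?_⟩, ?_, ?_⟩
  · rw [hYm, Finset.image_singleton]
    have := hmem i
    rw [hT, Finset.mem_biUnion] at this
    obtain ⟨s, hs, hi⟩ := this
    exact hgeo.1.2 s hs _ (Finset.singleton_subset_iff.2 hi)
  · rw [hYm, Finset.image_empty]
    exact hgeo.1.1
  · rw [hYm] at hs ⊢
    exact hgeo.1.2 _ hs _ (Finset.image_subset_image hts)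
  · obtain ⟨F, i1, i2, i3, K, hK1, hK2, hK3, hK4⟩ := hcc
    refine ⟨F, i1, i2, i3, fun i => K (q i), fun i => hK1 _, fun i => hK2 _, ?_, ?_⟩
    · have : (⋃ i, K (q i)) = ⋃ e, K e := by
        ext x
        rw [Set.mem_iUnion, Set.mem_iUnion]
        constructor
        · rintro ⟨i, hi⟩
          exact ⟨_, hi⟩
        · rintro ⟨e, he⟩
          have h5 : ({e} : Finset (V → ℝ)) ∈ S := by
            rw [hK4 _ (Finset.singleton_nonempty e)]
            refine ⟨x, Set.mem_iInter₂.2 fun i hi => ?_⟩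
            rw [Finset.mem_singleton] at hi
            rwa [hi]
          obtain ⟨i, rfl⟩ := hsurj e (hTm _ h5 e (Finset.mem_singleton_self e))
          exact ⟨i, he⟩
      rw [this]
      exact hK3
    · intro s hs
      rw [hYm, hK4 _ (hs.image q)]
      have : (⋂ e ∈ s.image q, K e) = ⋂ i ∈ s, K (q i) := by
        ext x
        rw [Set.mem_iInter₂, Set.mem_iInter₂]
        constructor
        · intro h i hi
          exact h _ (Finset.mem_image_of_mem q hi)
        · intro h e he
          obtain ⟨i, hi, rfl⟩ := Finset.mem_image.1 he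
          exact h i hi
      rw [this]
  · refine ⟨V → ℝ, inferInstance, inferInstance, q, fun v => Pi.single v 1,
      h1 _ _ Y q S hinj hgeo fun t ht => (hYm t).1 ht, h2 V X, ?_, ?_⟩
    · intro t ht
      obtain ⟨F, hF, hc⟩ := hsub.1 _ ((hYm t).1 ht)
      refine ⟨F, hF, ?_⟩
      rw [hcell, h3 V F]
      exact hc
    · intro F hF
      refine ⟨Y.filter (fun t => cell (t.image q) ⊆ spx F), Finset.filter_subset _ _, ?_⟩
      rw [h3 V F]
      ext x
      rw [Set.mem_iUnion₂]
      constructor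
      · intro hx
        obtain ⟨s, hs, hsF, hxs⟩ := hsub.2 F hF x hx
        obtain ⟨t, ht, rfl⟩ := hpre s hs
        refine ⟨t, Finset.mem_filter.2 ⟨ht, hsF⟩, ?_⟩
        rw [hcell]
        exact hxs
      · rintro ⟨t, ht, hx⟩
        rw [hcell] at hx
        exact (Finset.mem_filter.1 ht).2 hx

end Pool.Agent.K6.H24.CU
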