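import Pool.Agent.K6.H24.CU.Stm

namespace Pool.Agent.K6.H24.CU.P_VIS

open Set

section

variable {E : Type} [AddCommGroup E] [Module ℝ E]

theorem ht_prj (ht : E →ₗ[ℝ] ℝ) (d : E) (hd : ht d = 1) (x : E) : ht (prj ht d x) = 0 := by
  simp [prj, hd]

theorem prj_prj (ht : E →ₗ[ℝ] ℝ) (d : E) (hd : ht d = 1) (x : E) :
    prj ht d (prj ht d x) = prj ht d x := by
  have h := ht_prj ht d hd x
  conv_lhs => rw [prj]
  rw [h, zero_smul, sub_zero]

/-- `prj` as a linear map. -/
noncomputable def prL (ht : E →ₗ[ℝ] ℝ) (d : E) : E →ₗ[ℝ] E :=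
  LinearMap.id - ht.smulRight d

theorem prL_apply (ht : E →ₗ[ℝ] ℝ) (d : E) (x : E) : prL ht d x = prj ht d x := by
  simp [prL, prj]

theorem eq_prj_add (ht : E →ₗ[ℝ] ℝ) (d : E) (x : E) : x = prj ht d x + ht x • d := by
  simp [prj]

theorem prj_sum {ι : Type} (ht : E →ₗ[ℝ] ℝ) (d : E) (s : Finset ι) (b : ι → ℝ) (f : ι → E) :
    prj ht d (∑ l ∈ s, b l • f l) = ∑ l ∈ s, b l • prj ht d (f l) := by
  rw [← prL_apply, map_sum]
  apply Finset.sum_congr rfl
  intro l _
  rw [map_smul, prL_apply]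

theorem prj_add (ht : E →ₗ[ℝ] ℝ) (d : E) (x y : E) :
    prj ht d (x + y) = prj ht d x + prj ht d y := by
  simp only [← prL_apply, map_add]

theorem prj_smul (ht : E →ₗ[ℝ] ℝ) (d : E) (c : ℝ) (x : E) :
    prj ht d (c • x) = c • prj ht d x := by
  simp only [← prL_apply, map_smul]

theorem ht_sum {ι : Type} (ht : E →ₗ[ℝ] ℝ) (s : Finset ι) (b : ι → ℝ) (f : ι → E) :
    ht (∑ l ∈ s, b l • f l) = ∑ l ∈ s, b l * ht (f l) := by
  rw [map_sum]
  apply Finset.sum_congr rfl
  intro l _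
  rw [map_smul, smul_eq_mul]

variable [DecidableEq E]

theorem prj_lft (ht : E →ₗ[ℝ] ℝ) (d : E) (hd : ht d = 1) (A : Finset E) (x : E) :
    prj ht d (lft ht d A x) = prj ht d x := by
  unfold lft
  split_ifs
  · exact prj_prj ht d hd x
  · rfl

theorem ht_lft (ht : E →ₗ[ℝ] ℝ) (d : E) (hd : ht d = 1) (A : Finset E) (x : E) :
    ht (lft ht d A x) = if x ∈ A then 0 else ht x := by
  unfold lft
  split_ifs
  · exact ht_prj ht d hd x
  · rfl

theorem prj_sum_lft (ht : E →ₗ[ℝ] ℝ) (d : E) (hd : ht d = 1) (A s : Finset E) (b : E → ℝ) :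
    prj ht d (∑ l ∈ s, b l • lft ht d A l) = ∑ l ∈ s, b l • prj ht d l := by
  rw [prj_sum]
  simp only [prj_lft ht d hd]

theorem ht_sum_lft (ht : E →ₗ[ℝ] ℝ) (d : E) (hd : ht d = 1) (A s : Finset E) (b : E → ℝ) :
    ht (∑ l ∈ s, b l • lft ht d A l) = ∑ l ∈ s \ A, b l * ht l := by
  rw [ht_sum]
  simp only [ht_lft ht d hd]
  rw [← Finset.sum_filter_add_sum_filter_not s (fun l => l ∈ A)]
  have h1 : ∑ l ∈ s with l ∈ A, b l * (if l ∈ A then 0 else ht l) = 0 := by
    apply Finset.sum_eq_zero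
    intro l hl
    rw [if_pos (Finset.mem_filter.mp hl).2, mul_zero]
  rw [h1, zero_add, ← Finset.sdiff_eq_filter]
  apply Finset.sum_congr rfl
  intro l hl
  rw [if_neg (Finset.mem_sdiff.mp hl).2]

theorem sum_swap (s s' : Finset E) (f : E → ℝ) (h : ∀ l, l ∉ s → f l = 0)
    (h' : ∀ l, l ∉ s' → f l = 0) : ∑ l ∈ s, f l = ∑ l ∈ s', f l := by
  rw [Finset.sum_subset (Finset.subset_union_left (s₁ := s) (s₂ := s')) (fun x _ hx => h x hx),
    ← Finset.sum_subset (Finset.subset_union_right (s₁ := s) (s₂ := s')) (fun x _ hx => h' x hx)]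

theorem lft_mem {P : Set E} {ht : E →ₗ[ℝ] ℝ} {d : E} (hP : ∀ x ∈ P, prj ht d x ∈ P)
    (A : Finset E) (x : E) (hx : x ∈ P) : lft ht d A x ∈ P := by
  unfold lft
  split_ifs
  · exact hP x hx
  · exact hx

/-- adding `θ` to the coefficient at `u` -/
theorem sum_add_ite {M : Type} [AddCommGroup M] [Module ℝ M] (s : Finset E) (u : E) (hu : u ∈ s)
    (b : E → ℝ) (θ : ℝ) (g : E → M) :
    ∑ l ∈ s, (b l + if l = u then θ else 0) • g l = ∑ l ∈ s, b l • g l + θ • g u := by
  simp only [add_smul, Finset.sum_add_distrib, ite_smul, zero_smul, Finset.sum_ite_eq', hu,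
    if_true]

end

theorem P_VIS (h : S_IMG) : S_VIS := by
  intro E _ _ _ S₀ P ht d A S hp hI u huA hu0 s hs hsP hus t hts y hy θ hθ0 hθ1 r hr hz
  obtain ⟨b, hb, hby⟩ := (h E (lft ht d A) s).2.1 t hts y hy
  have hd := hp.htd
  set z := (1 - θ) • y + θ • prj ht d u with hzdef
  obtain ⟨hb0, hbs, hb1⟩ := hb
  set a : E → ℝ := fun l => (1 - θ) * b l + if l = u then θ else 0 with hadef
  have ha : Bary s a := by
    refine ⟨fun l => ?_, fun l hl => ?_, ?_⟩
    · simp only [hadef]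
      have := mul_nonneg (sub_nonneg.mpr hθ1) (hb0 l)
      split_ifs <;> linarith
    · simp only [hadef]
      rw [hbs l hl, if_neg (by rintro rfl; exact hl hus)]
      ring
    · have h1 := sum_add_ite (M := ℝ) s u hus (fun l => (1 - θ) * b l) θ (fun _ => 1)
      simp only [smul_eq_mul, mul_one] at h1
      simp only [hadef]
      rw [h1, ← Finset.mul_sum, hb1]
      ring
  -- projection of z
  have hpz : prj ht d z = ∑ l ∈ s, a l • prj ht d l := by
    rw [hzdef, prj_add, prj_smul, prj_smul, prj_prj ht d hd, ← hby, prj_sum_lft ht d hd]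
    simp only [hadef]
    rw [sum_add_ite s u hus (fun l => (1 - θ) * b l) θ (fun l => prj ht d l), Finset.smul_sum]
    simp only [mul_smul]
  -- height of z
  have hhz : ht z = (1 - θ) * ∑ l ∈ s \ A, b l * ht l := by
    rw [hzdef, map_add, map_smul, map_smul, ht_prj ht d hd, ← hby, ht_sum_lft ht d hd]
    simp
  have husA : u ∈ s \ A := Finset.mem_sdiff.mpr ⟨hus, huA⟩
  have hsum : ∑ l ∈ s \ A, a l * ht l = (1 - θ) * ∑ l ∈ s \ A, b l * ht l + θ * ht u := by
    have h1 := sum_add_ite (M := ℝ) (s \ A) u husA (fun l => (1 - θ) * b l) θ (fun l => ht l)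
    simp only [smul_eq_mul] at h1
    simp only [hadef]
    rw [h1, Finset.mul_sum]
    congr 1
    apply Finset.sum_congr rfl
    intro l _
    ring
  have hlt : ht z < ∑ l ∈ s \ A, a l * ht l := by
    rw [hhz, hsum]
    have := mul_pos hθ0 hu0
    linarith
  -- z in P
  have hyP : y ∈ P := by
    rw [← hby]
    exact hp.conv.sum_mem (fun l _ => hb0 l) hb1 (fun l hl => lft_mem hp.hP A l (hsP l hl))
  have hzP : z ∈ P := by
    apply hp.conv hyP (hp.hP u (hsP u hus)) (sub_nonneg.mpr hθ1) hθ0.le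
    ring
  rcases hI.low r hr z hz with ⟨t', ht', hzt'⟩ | ⟨_, s', hs', hs'P, c, hc, hpc, hle⟩
  · obtain ⟨s', hs', hs'P, c, hc, hcz⟩ := hp.inter t' ht' z hzt' hzP
    have hpc : prj ht d z = ∑ l ∈ s', c l • prj ht d l := by
      rw [← hcz, prj_sum]
    have hca : c = a := hp.uniq s' hs' hs'P s hs hsP c a hc ha (by rw [← hpc, hpz])
    subst hca
    have h1 : ht z = ∑ l ∈ s', a l * ht l := by rw [← hcz, ht_sum]
    have h2 : ∑ l ∈ s', a l * ht l = ∑ l ∈ s, a l * ht l := by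
      apply sum_swap
      · intro l hl
        rw [hc.2.1 l hl, zero_mul]
      · intro l hl
        rw [ha.2.1 l hl, zero_mul]
    have h3 : ∑ l ∈ s \ A, a l * ht l ≤ ∑ l ∈ s, a l * ht l := by
      apply Finset.sum_le_sum_of_subset_of_nonneg Finset.sdiff_subset
      intro l hl _
      exact mul_nonneg (hc.1 l) (hp.pos l (hsP l hl))
    linarith
  · have hca : c = a := hp.uniq s' hs' hs'P s hs hsP c a hc ha (by rw [← hpc, hpz])
    subst hca
    have h2 : ∑ l ∈ s' \ A, a l * ht l = ∑ l ∈ s \ A, a l * ht l := by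
      have e1 : ∀ q : Finset E, ∑ l ∈ q \ A, a l * ht l = ∑ l ∈ q, if l ∈ A then 0 else a l * ht l := by
        intro q
        rw [← Finset.sum_filter_add_sum_filter_not q (fun l => l ∈ A)]
        rw [Finset.sum_eq_zero (s := q.filter (fun l => l ∈ A)), zero_add,
          ← Finset.sdiff_eq_filter]
        · apply Finset.sum_congr rfl
          intro l hl
          rw [if_neg (Finset.mem_sdiff.mp hl).2]
        · intro l hl
          rw [if_pos (Finset.mem_filter.mp hl).2]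
      rw [e1, e1]
      apply sum_swap
      · intro l hl
        rw [hc.2.1 l hl, zero_mul, ite_self]
      · intro l hl
        rw [ha.2.1 l hl, zero_mul, ite_self]
    linarith

end Pool.Agent.K6.H24.CU.P_VIS

namespace Pool.Agent.K6.H24.CU

theorem P_VIS (h : S_IMG) : S_VIS := P_VIS.P_VIS h

end Pool.Agent.K6.H24.CU
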