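import Pool.Agent.K6.H24.CU.P_ADD
import Pool.Agent.K6.H24.CU.P_STP
import Pool.Agent.K6.H24.CU.P_PRI
import Pool.Agent.K6.H24.CU.P_FIN
import Pool.Agent.K6.H24.CU.P_CELL
import Pool.Agent.K6.H24.CU.P_IMG
import Pool.Agent.K6.H24.CU.P_CAL
import Pool.Agent.K6.H24.CU.P_THK
import Pool.Agent.K6.H24.CU.P_ADC
import Pool.Agent.K6.H24.CU.P_ADK
import Pool.Agent.K6.H24.CU.P_ADU
import Pool.Agent.K6.H24.CU.P_ADE
import Pool.Agent.K6.H24.CU.P_ADN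
import Pool.Agent.K6.H24.CU.P_VIS
import Pool.Agent.K6.H24.CU.P_LOW
import Pool.Agent.K6.H24.CU.P_FIL
import Pool.Agent.K6.H24.CU.P_SPX
import Pool.Agent.K6.H24.CU.P_STD
import Pool.Agent.K6.H24.CU.P_HIN
import Pool.Agent.K6.H24.CU.P_FIX
import Pool.Agent.K6.H24.CU.P_BAS
import Pool.Agent.K6.H24.CU.P_REA
import Pool.Agent.K6.H24.CU.P_TRA

/-! Assembly: every collapsible complex has a convex union representable subdivision. -/

namespace Pool.Agent.K6.H24.CU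

theorem main (V : Type) [Fintype V] [DecidableEq V] (X : Finset (Finset V)) (hX : IsCpx X)
    (hc : Collapsible X) :
    ∃ (n : ℕ) (Y : Finset (Finset (Fin n))), (∀ i, {i} ∈ Y) ∧ IsCpx Y ∧ IsSubdivision Y X ∧
      CUR Y := by
  have hADD : S_ADD := P_ADD P_ADC P_ADK P_ADU P_ADE P_ADN
  have hSTP : S_STP := P_STP hADD P_CAL (P_VIS P_IMG) (P_LOW P_IMG) (P_FIL P_IMG)
  have hPRI : S_PRI := P_PRI hSTP P_IMG
  have hFIN : S_FIN := P_FIN hPRI (P_FIX P_HIN) P_CELL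
  obtain ⟨S, hG, hC, hS⟩ := P_COL hFIN P_BAS V X hX hc
  obtain ⟨n, Y, h1, h2, h3, h4⟩ := P_TRA P_REA P_STD P_SPX P_CELL V X S hG hC hS
  exact ⟨n, Y, h1, h2, h4, P_THK (Fin n) Y h3⟩

end Pool.Agent.K6.H24.CU
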