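import Pool.Agent.K6.H24.CU.Stm

namespace Pool.Agent.K6.H24.CU

open Set

theorem P_ADD (h1 : S_ADC) (h2 : S_ADK) (h3 : S_ADU) (h4 : S_ADE) (h5 : S_ADN) : S_ADD := by
  intro V _ X B v w hX hCC hBX hB hdom hw
  obtain ⟨F, i1, i2, i3, K, hK, hKc, hKu, hN⟩ := hCC
  have hvB : {v} ∈ B := by
    have := hdom ∅ hB.1
    simpa using this
  have hvX : {v} ∈ X := hBX hvB
  have hvw : v ≠ w := by
    rintro rfl
    exact hw hvX
  have hKw : K w = ∅ := by
    by_contra hne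
    apply hw
    rw [hN {w} (Finset.singleton_nonempty w)]
    simpa using Set.nonempty_iff_ne_empty.mpr hne
  obtain ⟨c, ε, hε, hεc, hc, hgap⟩ := h4 V F X K v hvX hK hN
  obtain ⟨hTc, hnc⟩ := h1 V F K v w B c ε hε.le hKc hKu
  have hfin : ∃ A : Finset V, ∀ i, i ∉ A → K i = ∅ := by
    refine ⟨X.biUnion id, fun i hi => ?_⟩
    by_contra hne
    apply hi
    rw [Finset.mem_biUnion]
    refine ⟨{i}, ?_, by simp⟩
    rw [hN {i} (Finset.singleton_nonempty i)]
    simpa using Set.nonempty_iff_ne_empty.mpr hne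
  refine ⟨F × ℝ × ({H // H ∈ B} → ℝ), inferInstance, inferInstance, inferInstance,
    Kn K v w B c ε, h2 V F K v w B c ε hK hfin, hnc, ?_, ?_⟩
  · rw [h3 V F K v w B c ε hε hvw hKw]
    exact hTc
  · exact h5 V F X K v w B c ε hX hBX hB hdom hw hN hε hεc hc hgap

end Pool.Agent.K6.H24.CU
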