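import Pool.Agent.K6.H24.CU.Stm

set_option autoImplicit false

/-!
# ADN: the new nerve (piece of helper37)
-/

namespace Pool.Agent.K6.H24.CU

open Set

namespace ADN

theorem lam_le {V : Type} {B : Finset (Finset V)} (i : V) {y : {H // H ∈ B} → ℝ}
    (hy : y ∈ stdSimplex ℝ {H // H ∈ B}) : lam B i y ≤ 1 := by
  classical
  unfold lam
  rw [← hy.2]
  refine Finset.sum_le_sum fun H _ => ?_
  split_ifs
  · exact hy.1 H
  · exact le_rfl

theorem lam_single {V : Type} [DecidableEq V] {B : Finset (Finset V)} {i : V} {F : Finset V}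
    (hF : F ∈ B) (hi : i ∈ F) : lam B i (Pi.single (⟨F, hF⟩ : {H // H ∈ B}) 1) = 0 := by
  unfold lam
  refine Finset.sum_eq_zero fun H _ => ?_
  by_cases hH : H = ⟨F, hF⟩
  · subst hH
    rw [if_pos hi]
  · rw [Pi.single_eq_of_ne hH]
    split_ifs <;> rfl

theorem lam_zero {V : Type} {B : Finset (Finset V)} {i : V} {y : {H // H ∈ B} → ℝ}
    (hy : y ∈ stdSimplex ℝ {H // H ∈ B}) (h : lam B i y ≤ 0) (H : {H // H ∈ B})
    (hH : i ∉ H.1) : y H = 0 := by
  classical
  unfold lam at h
  have h1 : ∀ G ∈ (Finset.univ : Finset {H // H ∈ B}), 0 ≤ (if i ∈ G.1 then 0 else y G) := by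
    intro G _
    split_ifs
    · exact le_rfl
    · exact hy.1 G
  have h2 : (∑ G : {H // H ∈ B}, if i ∈ G.1 then 0 else y G) = 0 := by
    refine le_antisymm ?_ (Finset.sum_nonneg h1)
    convert h
  have h3 := (Finset.sum_eq_zero_iff_of_nonneg h1).1 h2 H (Finset.mem_univ _)
  rwa [if_neg hH] at h3

theorem single_mem {V : Type} [DecidableEq V] {B : Finset (Finset V)} (H : {H // H ∈ B}) :
    (Pi.single H 1 : {H // H ∈ B} → ℝ) ∈ stdSimplex ℝ {H // H ∈ B} :=
  single_mem_stdSimplex ℝ H

section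

variable {V F : Type} [DecidableEq V] [NormedAddCommGroup F] {K : V → Set F} {v w : V}
  {B : Finset (Finset V)} {c ε : ℝ}

theorem mem_w {p : F × ℝ × ({H // H ∈ B} → ℝ)} :
    p ∈ Kn K v w B c ε w ↔ p ∈ Tot K v B c ∧ c ≤ p.2.1 := by
  unfold Kn
  rw [if_pos rfl]
  rfl

theorem mem_v (h : v ≠ w) {p : F × ℝ × ({H // H ∈ B} → ℝ)} :
    p ∈ Kn K v w B c ε v ↔ p ∈ Tot K v B c ∧ ∃ k ∈ K v, ‖p.1 - k‖ ≤ ε := by
  unfold Kn
  rw [if_neg h, if_pos rfl]
  rfl

theorem mem_i {i : V} (h : i ≠ w) (h' : i ≠ v) {p : F × ℝ × ({H // H ∈ B} → ℝ)} :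
    p ∈ Kn K v w B c ε i ↔
      p ∈ Tot K v B c ∧ p.1 ∈ K i ∧ p.2.1 ≤ c - ε * lam B i p.2.2 := by
  unfold Kn
  rw [if_neg h, if_neg h']
  rfl

end

end ADN

open ADN

theorem P_ADN : S_ADN := by
  intro V F _ _ _ X K v w B c ε hX hBX hB hvB hw hner hε hεc hbd hgap s hs
  have hvB0 : {v} ∈ B := by
    have := hvB ∅ hB.1
    simpa using this
  have hvX : {v} ∈ X := hBX hvB0
  have hvw : v ≠ w := by
    rintro rfl
    exact hw hvX
  have hKv : (K v).Nonempty := by
    have := (hner {v} (Finset.singleton_nonempty v)).1 hvX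
    simpa using this
  have hwX : ∀ t ∈ X, w ∉ t := fun t ht hwt =>
    hw (hX.2 t ht {w} (Finset.singleton_subset_iff.2 hwt))
  by_cases hws : w ∈ s
  · have hiff : s ∈ X ∪ B.image (insert w) ↔ s.erase w ∈ B := by
      rw [Finset.mem_union, Finset.mem_image]
      constructor
      · rintro (h | ⟨t, ht, rfl⟩)
        · exact absurd hws (hwX s h)
        · rwa [Finset.erase_insert (hwX t (hBX ht))]
      · intro h
        exact Or.inr ⟨_, h, Finset.insert_erase hws⟩
    rw [hiff]
    constructor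
    · intro hF
      have h1 : insert v (s.erase w) ∈ X := hBX (hvB _ hF)
      obtain ⟨x, hx⟩ := (hner _ (Finset.insert_nonempty _ _)).1 h1
      rw [Set.mem_iInter₂] at hx
      have hxv : x ∈ K v := hx v (Finset.mem_insert_self _ _)
      have hT : (x, c, (Pi.single (⟨s.erase w, hF⟩ : {H // H ∈ B}) 1 : {H // H ∈ B} → ℝ)) ∈
          Tot K v B c := by
        refine ⟨Set.mem_iUnion.2 ⟨v, hxv⟩, by linarith, ⟨x, hxv, ?_⟩, single_mem _⟩
        simp
      refine ⟨(x, c, (Pi.single (⟨s.erase w, hF⟩ : {H // H ∈ B}) 1 : {H // H ∈ B} → ℝ)),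
        Set.mem_iInter₂.2 fun i hi => ?_⟩
      · by_cases hiw : i = w
        · subst hiw
          exact mem_w.2 ⟨hT, le_rfl⟩
        · by_cases hiv : i = v
          · subst hiv
            refine (mem_v hvw).2 ⟨hT, x, hxv, ?_⟩
            simpa using hε.le
          · have hiF : i ∈ s.erase w := Finset.mem_erase.2 ⟨hiw, hi⟩
            refine (mem_i hiw hiv).2 ⟨hT, hx i (Finset.mem_insert_of_mem hiF), ?_⟩
            dsimp only
            rw [lam_single hF hiF]
            simp
    · rintro ⟨p, hp⟩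
      rw [Set.mem_iInter₂] at hp
      obtain ⟨hT, hc⟩ := mem_w.1 (hp w hws)
      have hy := hT.2.2.2
      have hex : ∃ H : {H // H ∈ B}, p.2.2 H ≠ 0 := by
        by_contra hcon
        push Not at hcon
        have := hy.2
        rw [Finset.sum_eq_zero fun H _ => hcon H] at this
        exact zero_ne_one this
      obtain ⟨H, hH⟩ := hex
      apply hB.2 _ (hvB H.1 H.2)
      intro i hi
      rw [Finset.mem_erase] at hi
      by_cases hiv : i = v
      · subst hiv
        exact Finset.mem_insert_self _ _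
      · apply Finset.mem_insert_of_mem
        by_contra hiH
        obtain ⟨-, -, h3⟩ := (mem_i hi.1 hiv).1 (hp i hi.2)
        have h4 : lam B i p.2.2 ≤ 0 := by
          by_contra h5
          push Not at h5
          have := mul_pos hε h5
          linarith
        exact hH (lam_zero hy h4 H hiH)
  · have hiff : s ∈ X ∪ B.image (insert w) ↔ s ∈ X := by
      rw [Finset.mem_union, Finset.mem_image]
      constructor
      · rintro (h | ⟨t, ht, rfl⟩)
        · exact h
        · exact absurd (Finset.mem_insert_self _ _) hws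
      · exact Or.inl
    rw [hiff]
    constructor
    · intro hsX
      obtain ⟨x, hx⟩ := (hner s hs).1 hsX
      rw [Set.mem_iInter₂] at hx
      obtain ⟨k, hk⟩ := hKv
      obtain ⟨i0, hi0⟩ := hs
      have hT : (x, (0 : ℝ), (Pi.single (⟨∅, hB.1⟩ : {H // H ∈ B}) 1 : {H // H ∈ B} → ℝ)) ∈
          Tot K v B c := by
        refine ⟨Set.mem_iUnion.2 ⟨i0, hx i0 hi0⟩, le_rfl, ⟨k, hk, ?_⟩, single_mem _⟩
        have := hbd i0 x (hx i0 hi0) k hk
        simpa using this
      refine ⟨(x, (0 : ℝ), (Pi.single (⟨∅, hB.1⟩ : {H // H ∈ B}) 1 : {H // H ∈ B} → ℝ)),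
        Set.mem_iInter₂.2 fun i hi => ?_⟩
      · have hiw : i ≠ w := by
          rintro rfl
          exact hws hi
        by_cases hiv : i = v
        · subst hiv
          refine (mem_v hvw).2 ⟨hT, x, hx i hi, ?_⟩
          simpa using hε.le
        · refine (mem_i hiw hiv).2 ⟨hT, hx i hi, ?_⟩
          have h1 := lam_le (B := B) i (single_mem (⟨∅, hB.1⟩ : {H // H ∈ B}))
          dsimp only
          nlinarith
    · rintro ⟨p, hp⟩
      rw [Set.mem_iInter₂] at hp
      have hK : ∀ i ∈ s, i ≠ v → p.1 ∈ K i := by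
        intro i hi hiv
        have hiw : i ≠ w := by
          rintro rfl
          exact hws hi
        exact ((mem_i hiw hiv).1 (hp i hi)).2.1
      by_cases hvs : v ∈ s
      · obtain ⟨-, k, hk, hkε⟩ := (mem_v hvw).1 (hp v hvs)
        by_cases hemp : (s.erase v).Nonempty
        · have h1 : p.1 ∈ ⋂ i ∈ s.erase v, K i :=
            Set.mem_iInter₂.2 fun i hi =>
              hK i (Finset.mem_of_mem_erase hi) (Finset.ne_of_mem_erase hi)
          have h2 : s.erase v ∈ X := (hner _ hemp).2 ⟨_, h1⟩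
          by_contra hsX
          have h3 := hgap _ h2 hemp (by rwa [Finset.insert_erase hvs]) _ h1 k hk
          linarith
        · rw [Finset.not_nonempty_iff_eq_empty] at hemp
          have : s = {v} := by
            rw [← Finset.insert_erase hvs, hemp]
            rfl
          rw [this]
          exact hvX
      · exact (hner s hs).2 ⟨p.1, Set.mem_iInter₂.2 fun i hi => hK i hi
          (fun h => hvs (h ▸ hi))⟩

end Pool.Agent.K6.H24.CU
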