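import Mathlib

/-!
Definitions and exact statements for MP_bce56d_co: every collapsible complex has a convex union
representable subdivision.  Only Mathlib is used.
-/

namespace Pool.Agent.K6.H24.CU

open Set

/-! ## Abstract complexes -/

/-- A finite abstract simplicial complex on (a subset of) `V`: it contains the empty face and is
closed under taking subsets. -/
def IsCpx {V : Type} (X : Finset (Finset V)) : Prop :=
  ∅ ∈ X ∧ ∀ s ∈ X, ∀ t, t ⊆ s → t ∈ X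

/-- Collapsible: reducible to a single vertex by elementary collapses (delete a free face `τ`,
properly contained in exactly one other face `σ`, together with `σ`). -/
inductive Collapsible {V : Type} [DecidableEq V] : Finset (Finset V) → Prop
  | vertex (v : V) : Collapsible {∅, {v}}
  | step (X : Finset (Finset V)) (τ σ : Finset V) (hτ : τ ∈ X) (hσ : σ ∈ X) (h : τ ⊂ σ)
      (hfree : ∀ ρ ∈ X, τ ⊂ ρ → ρ = σ) (hc : Collapsible (X \ {τ, σ})) : Collapsible X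

/-- Convex union representable: `X` is the nerve of a family of open convex subsets of some
Euclidean space, indexed by the vertices, with convex union. -/
def CUR {V : Type} (X : Finset (Finset V)) : Prop :=
  ∃ (d : ℕ) (U : V → Set (EuclideanSpace ℝ (Fin d))),
    (∀ i, IsOpen (U i)) ∧ (∀ i, Convex ℝ (U i)) ∧ Convex ℝ (⋃ i, U i) ∧
    ∀ s : Finset V, s.Nonempty → (s ∈ X ↔ (⋂ i ∈ s, U i).Nonempty)

/-- Auxiliary version with compact convex sets in a finite dimensional normed space. -/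
def CC {V : Type} (X : Finset (Finset V)) : Prop :=
  ∃ (F : Type) (_ : NormedAddCommGroup F) (_ : NormedSpace ℝ F) (_ : FiniteDimensional ℝ F)
    (K : V → Set F),
    (∀ i, IsCompact (K i)) ∧ (∀ i, Convex ℝ (K i)) ∧ Convex ℝ (⋃ i, K i) ∧
    ∀ s : Finset V, s.Nonempty → (s ∈ X ↔ (⋂ i ∈ s, K i).Nonempty)

/-- `p` is a geometric realization of `X` in the real vector space `E`. -/
def IsRealization {V E : Type} [AddCommGroup E] [Module ℝ E] (X : Finset (Finset V))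
    (p : V → E) : Prop :=
  (∀ s ∈ X, AffineIndependent ℝ (fun i : {i // i ∈ s} => p i.1)) ∧
  ∀ s ∈ X, ∀ t ∈ X, convexHull ℝ (p '' {i | i ∈ s}) ∩ convexHull ℝ (p '' {i | i ∈ t}) ⊆
    convexHull ℝ (p '' {i | i ∈ s ∧ i ∈ t})

/-- `Y` is a subdivision of `X`: there are geometric realizations in a common space such that
every simplex of `Y` lies in a simplex of `X` and every simplex of `X` is a union of simplices
of `Y`. -/
def IsSubdivision {V W : Type} (Y : Finset (Finset W)) (X : Finset (Finset V)) : Prop :=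
  ∃ (E : Type) (_ : AddCommGroup E) (_ : Module ℝ E) (q : W → E) (p : V → E),
    IsRealization Y q ∧ IsRealization X p ∧
    (∀ t ∈ Y, ∃ s ∈ X, convexHull ℝ (q '' {i | i ∈ t}) ⊆ convexHull ℝ (p '' {i | i ∈ s})) ∧
    ∀ s ∈ X, ∃ T : Finset (Finset W), T ⊆ Y ∧
      convexHull ℝ (p '' {i | i ∈ s}) = ⋃ t ∈ T, convexHull ℝ (q '' {i | i ∈ t})

/-! ## Geometric complexes, in coefficient form -/

/-- `a` is a system of barycentric coordinates supported on `s`. -/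
def Bary {E : Type} (s : Finset E) (a : E → ℝ) : Prop :=
  (∀ u, 0 ≤ a u) ∧ (∀ u, u ∉ s → a u = 0) ∧ ∑ u ∈ s, a u = 1

/-- The (closed) cell of the finite set of points `s`; it is the convex hull of `s`. -/
def cell {E : Type} [AddCommGroup E] [Module ℝ E] (s : Finset E) : Set E :=
  {x | ∃ a : E → ℝ, Bary s a ∧ ∑ u ∈ s, a u • u = x}

/-- A finite geometric simplicial complex whose vertices are points of `E`: barycentric
coordinates are unique. -/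
def Geo {E : Type} [AddCommGroup E] [Module ℝ E] (S : Finset (Finset E)) : Prop :=
  IsCpx S ∧ ∀ s ∈ S, ∀ t ∈ S, ∀ a b : E → ℝ, Bary s a → Bary t b →
    ∑ u ∈ s, a u • u = ∑ u ∈ t, b u • u → a = b

/-- PIECE CELL. -/
def S_CELL : Prop := ∀ (E : Type) [AddCommGroup E] [Module ℝ E] (s : Finset E),
  cell s = convexHull ℝ (s : Set E)

/-- PIECE IMG. -/
def S_IMG : Prop := ∀ (E : Type) [DecidableEq E] [AddCommGroup E] [Module ℝ E] (f : E → E)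
  (s : Finset E),
  (∀ a, Bary s a → ∑ l ∈ s, a l • f l ∈ cell (s.image f)) ∧
  (∀ t, t ⊆ s.image f → ∀ x ∈ cell t, ∃ a, Bary s a ∧ ∑ l ∈ s, a l • f l = x) ∧
  (∀ (w : E) (b : E → ℝ) (θ : ℝ), (∀ u, 0 ≤ b u) → (∀ u, u ∉ s → b u = 0) → 0 ≤ θ →
    (∑ u ∈ s, b u) + θ = 1 → ∑ l ∈ s, b l • f l + θ • w ∈ cell (insert w (s.image f))) ∧
  (∀ (w : E) (t : Finset E), t ⊆ s.image f → ∀ x ∈ cell (insert w t), ∃ (b : E → ℝ) (θ : ℝ),
    (∀ u, 0 ≤ b u) ∧ (∀ u, u ∉ s → b u = 0) ∧ 0 ≤ θ ∧ (∑ u ∈ s, b u) + θ = 1 ∧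
      ∑ l ∈ s, b l • f l + θ • w = x)

/-- PIECE CAL: attaching a cone with apex `w` over the subcomplex `B`. -/
def S_CAL : Prop := ∀ (E : Type) [DecidableEq E] [AddCommGroup E] [Module ℝ E]
  (K B : Finset (Finset E)) (w : E), Geo K → B ⊆ K → IsCpx B →
  (∀ s ∈ K, w ∉ cell s) →
  (∀ t ∈ B, ∀ y ∈ cell t, ∀ θ : ℝ, 0 < θ → θ < 1 → ∀ s ∈ K, (1 - θ) • y + θ • w ∉ cell s) →
  Geo (K ∪ B.image (insert w))

/-! ## Compact convex families -/

/-- PIECE THK: thicken the compact sets to open sets. -/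
def S_THK : Prop := ∀ (V : Type) [Finite V] (X : Finset (Finset V)), CC X → CUR X

/-- The sum of the coordinates `y H` over the faces `H` of `B` which do not contain `i`. -/
noncomputable def lam {V : Type} (B : Finset (Finset V)) (i : V) (y : {H // H ∈ B} → ℝ) : ℝ :=
  haveI := Classical.decEq V
  ∑ H : {H // H ∈ B}, if i ∈ H.1 then 0 else y H

/-- The new total set. -/
def Tot {V F : Type} [NormedAddCommGroup F] (K : V → Set F) (v : V) (B : Finset (Finset V))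
    (c : ℝ) : Set (F × ℝ × ({H // H ∈ B} → ℝ)) :=
  {p | p.1 ∈ (⋃ i, K i) ∧ 0 ≤ p.2.1 ∧ (∃ k ∈ K v, ‖p.1 - k‖ ≤ c - p.2.1) ∧
    p.2.2 ∈ stdSimplex ℝ {H // H ∈ B}}

/-- The new family. -/
def Kn {V F : Type} [DecidableEq V] [NormedAddCommGroup F] (K : V → Set F) (v w : V)
    (B : Finset (Finset V)) (c ε : ℝ) (i : V) : Set (F × ℝ × ({H // H ∈ B} → ℝ)) :=
  if i = w then {p | p ∈ Tot K v B c ∧ c ≤ p.2.1}
  else if i = v then {p | p ∈ Tot K v B c ∧ ∃ k ∈ K v, ‖p.1 - k‖ ≤ ε}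
  else {p | p ∈ Tot K v B c ∧ p.1 ∈ K i ∧ p.2.1 ≤ c - ε * lam B i p.2.2}

/-- PIECE ADC: convexity. -/
def S_ADC : Prop := ∀ (V F : Type) [DecidableEq V] [NormedAddCommGroup F] [NormedSpace ℝ F]
  (K : V → Set F) (v w : V) (B : Finset (Finset V)) (c ε : ℝ), 0 ≤ ε →
  (∀ i, Convex ℝ (K i)) → Convex ℝ (⋃ i, K i) →
  Convex ℝ (Tot K v B c) ∧ ∀ i, Convex ℝ (Kn K v w B c ε i)

/-- PIECE ADK: compactness. -/
def S_ADK : Prop := ∀ (V F : Type) [DecidableEq V] [NormedAddCommGroup F] [NormedSpace ℝ F]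
  (K : V → Set F) (v w : V) (B : Finset (Finset V)) (c ε : ℝ),
  (∀ i, IsCompact (K i)) → (∃ A : Finset V, ∀ i, i ∉ A → K i = ∅) →
  ∀ i, IsCompact (Kn K v w B c ε i)

/-- PIECE ADU: the union of the new family. -/
def S_ADU : Prop := ∀ (V F : Type) [DecidableEq V] [NormedAddCommGroup F] [NormedSpace ℝ F]
  (K : V → Set F) (v w : V) (B : Finset (Finset V)) (c ε : ℝ), 0 < ε → v ≠ w → K w = ∅ →
  ⋃ i, Kn K v w B c ε i = Tot K v B c

/-- PIECE ADE: the constants. -/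
def S_ADE : Prop := ∀ (V F : Type) [DecidableEq V] [NormedAddCommGroup F] [NormedSpace ℝ F]
  (X : Finset (Finset V)) (K : V → Set F) (v : V), {v} ∈ X →
  (∀ i, IsCompact (K i)) → (∀ s : Finset V, s.Nonempty → (s ∈ X ↔ (⋂ i ∈ s, K i).Nonempty)) →
  ∃ c ε : ℝ, 0 < ε ∧ ε < c ∧ (∀ i, ∀ x ∈ K i, ∀ k ∈ K v, ‖x - k‖ ≤ c) ∧
    ∀ s ∈ X, s.Nonempty → insert v s ∉ X → ∀ x ∈ (⋂ i ∈ s, K i), ∀ k ∈ K v, ε < ‖x - k‖

/-- PIECE ADN: the new nerve. -/
def S_ADN : Prop := ∀ (V F : Type) [DecidableEq V] [NormedAddCommGroup F] [NormedSpace ℝ F]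
  (X : Finset (Finset V)) (K : V → Set F) (v w : V) (B : Finset (Finset V)) (c ε : ℝ),
  IsCpx X → B ⊆ X → IsCpx B → (∀ t ∈ B, insert v t ∈ B) → {w} ∉ X →
  (∀ s : Finset V, s.Nonempty → (s ∈ X ↔ (⋂ i ∈ s, K i).Nonempty)) →
  0 < ε → ε < c → (∀ i, ∀ x ∈ K i, ∀ k ∈ K v, ‖x - k‖ ≤ c) →
  (∀ s ∈ X, s.Nonempty → insert v s ∉ X → ∀ x ∈ (⋂ i ∈ s, K i), ∀ k ∈ K v, ε < ‖x - k‖) →
  ∀ s : Finset V, s.Nonempty →
    (s ∈ X ∪ B.image (insert w) ↔ (⋂ i ∈ s, Kn K v w B c ε i).Nonempty)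

/-- PIECE ADD: adding a dominated vertex preserves `CC`. -/
def S_ADD : Prop := ∀ (V : Type) [DecidableEq V] (X B : Finset (Finset V)) (v w : V),
  IsCpx X → CC X → B ⊆ X → IsCpx B → (∀ t ∈ B, insert v t ∈ B) → {w} ∉ X →
  CC (X ∪ B.image (insert w))

/-! ## Prisms -/

/-- The projection along `d`. -/
def prj {E : Type} [AddCommGroup E] [Module ℝ E] (ht : E →ₗ[ℝ] ℝ) (d : E) (x : E) : E :=
  x - ht x • d

/-- Hypotheses of the prism construction over `S₀ ∩ P`. -/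
structure Prism {E : Type} [AddCommGroup E] [Module ℝ E] (S₀ : Finset (Finset E)) (P : Set E)
    (ht : E →ₗ[ℝ] ℝ) (d : E) : Prop where
  geo : Geo S₀
  cc : CC S₀
  conv : Convex ℝ P
  htd : ht d = 1
  hP : ∀ x ∈ P, prj ht d x ∈ P
  pos : ∀ x ∈ P, 0 ≤ ht x
  uniq : ∀ s ∈ S₀, (∀ u ∈ s, u ∈ P) → ∀ t ∈ S₀, (∀ u ∈ t, u ∈ P) → ∀ a b : E → ℝ,
    Bary s a → Bary t b → ∑ u ∈ s, a u • prj ht d u = ∑ u ∈ t, b u • prj ht d u → a = b
  ex : ∀ x ∈ P, ∃ s ∈ S₀, (∀ u ∈ s, u ∈ P) ∧ ∃ a, Bary s a ∧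
    prj ht d x = ∑ u ∈ s, a u • prj ht d u ∧ ht x ≤ ∑ u ∈ s, a u * ht u
  inter : ∀ t ∈ S₀, ∀ z ∈ cell t, z ∈ P → ∃ s ∈ S₀, (∀ u ∈ s, u ∈ P) ∧ z ∈ cell s

/-- Replace the points of `A` by their projections. -/
noncomputable def lft {E : Type} [AddCommGroup E] [Module ℝ E] [DecidableEq E] (ht : E →ₗ[ℝ] ℝ)
    (d : E) (A : Finset E) (x : E) : E :=
  if x ∈ A then prj ht d x else x

/-- Invariants of the prism construction. -/
structure Inv {E : Type} [AddCommGroup E] [Module ℝ E] [DecidableEq E] (S₀ : Finset (Finset E))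
    (P : Set E) (ht : E →ₗ[ℝ] ℝ) (d : E) (A : Finset E) (S : Finset (Finset E)) : Prop where
  geo : Geo S
  cc : CC S
  sub : S₀ ⊆ S
  img : ∀ s ∈ S₀, (∀ u ∈ s, u ∈ P) → s.image (lft ht d A) ∈ S
  dich : ∀ t ∈ S, t ∈ S₀ ∨ ∀ u ∈ t, u ∈ P
  low : ∀ t ∈ S, ∀ z ∈ cell t, (∃ t' ∈ S₀, z ∈ cell t') ∨ (z ∈ P ∧ ∃ s ∈ S₀, (∀ u ∈ s, u ∈ P) ∧
    ∃ a, Bary s a ∧ prj ht d z = ∑ l ∈ s, a l • prj ht d l ∧ ∑ l ∈ s \ A, a l * ht l ≤ ht z)
  fill : ∀ s ∈ S₀, (∀ u ∈ s, u ∈ P) → ∀ a, Bary s a → ∀ x, prj ht d x = ∑ l ∈ s, a l • prj ht d l →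
    ∑ l ∈ s \ A, a l * ht l ≤ ht x → ht x ≤ ∑ l ∈ s, a l * ht l →
    ∃ t ∈ S, (∀ u ∈ t, u ∈ P) ∧ x ∈ cell t

/-- PIECE VIS: visibility. -/
def S_VIS : Prop := ∀ (E : Type) [AddCommGroup E] [Module ℝ E] [DecidableEq E]
  (S₀ : Finset (Finset E)) (P : Set E) (ht : E →ₗ[ℝ] ℝ) (d : E) (A : Finset E)
  (S : Finset (Finset E)), Prism S₀ P ht d → Inv S₀ P ht d A S → ∀ u, u ∉ A → 0 < ht u →
  ∀ s ∈ S₀, (∀ l ∈ s, l ∈ P) → u ∈ s → ∀ t, t ⊆ s.image (lft ht d A) → ∀ y ∈ cell t,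
  ∀ θ : ℝ, 0 < θ → θ ≤ 1 → ∀ r ∈ S, (1 - θ) • y + θ • prj ht d u ∉ cell r

/-- PIECE LOW: the points of a new simplex. -/
def S_LOW : Prop := ∀ (E : Type) [AddCommGroup E] [Module ℝ E] [DecidableEq E]
  (S₀ : Finset (Finset E)) (P : Set E) (ht : E →ₗ[ℝ] ℝ) (d : E) (A : Finset E),
  Prism S₀ P ht d → ∀ u, u ∉ A → ∀ s ∈ S₀, (∀ l ∈ s, l ∈ P) → u ∈ s →
  ∀ t, t ⊆ s.image (lft ht d A) → ∀ z ∈ cell (insert (prj ht d u) t),
  z ∈ P ∧ ∃ a, Bary s a ∧ prj ht d z = ∑ l ∈ s, a l • prj ht d l ∧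
    ∑ l ∈ s \ (insert u A), a l * ht l ≤ ht z

/-- PIECE FIL: the points covered by a new simplex. -/
def S_FIL : Prop := ∀ (E : Type) [AddCommGroup E] [Module ℝ E] [DecidableEq E]
  (S₀ : Finset (Finset E)) (P : Set E) (ht : E →ₗ[ℝ] ℝ) (d : E) (A : Finset E),
  Prism S₀ P ht d → ∀ u, u ∉ A → ∀ s ∈ S₀, (∀ l ∈ s, l ∈ P) →
  ∀ a, Bary s a → ∀ x, prj ht d x = ∑ l ∈ s, a l • prj ht d l →
  ∑ l ∈ s \ (insert u A), a l * ht l ≤ ht x → ht x < ∑ l ∈ s \ A, a l * ht l →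
  u ∈ s ∧ x ∈ cell (insert (prj ht d u) (s.image (lft ht d A)))

/-- PIECE STP: one step. -/
def S_STP : Prop := ∀ (E : Type) [AddCommGroup E] [Module ℝ E] [DecidableEq E]
  (S₀ : Finset (Finset E)) (P : Set E) (ht : E →ₗ[ℝ] ℝ) (d : E) (A : Finset E)
  (S : Finset (Finset E)), Prism S₀ P ht d → Inv S₀ P ht d A S → ∀ u, u ∉ A → 0 < ht u →
  {u} ∈ S₀ → u ∈ P → ∃ S', Inv S₀ P ht d (insert u A) S'

/-- PIECE PRI: the prism theorem. -/
def S_PRI : Prop := ∀ (E : Type) [AddCommGroup E] [Module ℝ E] (S₀ : Finset (Finset E))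
  (P : Set E) (ht : E →ₗ[ℝ] ℝ) (d : E), Prism S₀ P ht d →
  ∃ S : Finset (Finset E), Geo S ∧ CC S ∧ S₀ ⊆ S ∧ (∀ t ∈ S, t ∈ S₀ ∨ ∀ u ∈ t, u ∈ P) ∧
    (∀ x ∈ P, ∃ t ∈ S, (∀ u ∈ t, u ∈ P) ∧ x ∈ cell t) ∧
    (∀ x ∈ P, ht x = 0 → ∃ t ∈ S, (∀ u ∈ t, u ∈ P ∧ ht u = 0) ∧ x ∈ cell t)

/-! ## The standard realization -/

/-- The standard simplex on the face `F`. -/
def spx {V : Type} [Fintype V] (F : Finset V) : Set (V → ℝ) :=
  {x | (∀ i, 0 ≤ x i) ∧ (∀ i, i ∉ F → x i = 0) ∧ ∑ i, x i = 1}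

/-- PIECE SPX. -/
def S_SPX : Prop := ∀ (V : Type) [Fintype V] [DecidableEq V] (F : Finset V),
  convexHull ℝ ((fun v : V => (Pi.single v 1 : V → ℝ)) '' {i | i ∈ F}) = spx F

/-- PIECE STD: the standard realization. -/
def S_STD : Prop := ∀ (V : Type) [Fintype V] [DecidableEq V] (X : Finset (Finset V)),
  IsRealization X (fun v : V => (Pi.single v 1 : V → ℝ))

/-- `S` subdivides (the standard realization of) `X`. -/
def Subd {V : Type} [Fintype V] (S : Finset (Finset (V → ℝ))) (X : Finset (Finset V)) : Prop :=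
  (∀ s ∈ S, ∃ F ∈ X, cell s ⊆ spx F) ∧
  ∀ F ∈ X, ∀ x ∈ spx F, ∃ s ∈ S, cell s ⊆ spx F ∧ x ∈ cell s

/-- The direction of projection. -/
noncomputable def dirv {V : Type} [DecidableEq V] (v : V) (τ : Finset V) : V → ℝ :=
  fun i => if i = v then 1 else if i ∈ τ then -(1 / (τ.card : ℝ)) else 0

/-- PIECE HIN: the projection on the simplex. -/
def S_HIN : Prop := ∀ (V : Type) [Fintype V] [DecidableEq V] (v : V) (τ : Finset V),
  τ.Nonempty → v ∉ τ →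
  (∀ x ∈ spx (insert v τ), prj (LinearMap.proj v) (dirv v τ) x ∈ spx (insert v τ)) ∧
  (∀ x ∈ spx (insert v τ), ∀ y ∈ spx (insert v τ), (∃ i ∈ τ, y i = 0) →
    prj (LinearMap.proj v) (dirv v τ) x = prj (LinearMap.proj v) (dirv v τ) y → x v ≤ y v) ∧
  (∀ x ∈ spx (insert v τ), ∃ y ∈ spx (insert v τ), (∃ i ∈ τ, y i = 0) ∧
    prj (LinearMap.proj v) (dirv v τ) y = prj (LinearMap.proj v) (dirv v τ) x)

/-- PIECE FIX: an elementary expansion yields a prism. -/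
def S_FIX : Prop := ∀ (V : Type) [Fintype V] [DecidableEq V] (X : Finset (Finset V)) (v : V)
  (τ : Finset V) (S₀ : Finset (Finset (V → ℝ))), τ.Nonempty → v ∉ τ → IsCpx X → τ ∉ X →
  (∀ F, F ⊆ insert v τ → F ≠ τ → F ≠ insert v τ → F ∈ X) →
  Geo S₀ → CC S₀ → Subd S₀ X →
  Prism S₀ (spx (insert v τ)) (LinearMap.proj v) (dirv v τ)

/-- PIECE FIN: the expansion step. -/
def S_FIN : Prop := ∀ (V : Type) [Fintype V] [DecidableEq V] (X : Finset (Finset V)) (v : V)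
  (τ : Finset V) (S₀ : Finset (Finset (V → ℝ))), τ.Nonempty → v ∉ τ → IsCpx X → τ ∉ X →
  (∀ F, F ⊆ insert v τ → F ≠ τ → F ≠ insert v τ → F ∈ X) →
  Geo S₀ → CC S₀ → Subd S₀ X →
  ∃ S : Finset (Finset (V → ℝ)), Geo S ∧ CC S ∧ Subd S (X ∪ {τ, insert v τ})

/-- PIECE BAS: a single vertex. -/
def S_BAS : Prop := ∀ (V : Type) [Fintype V] [DecidableEq V] (v : V),
  ∃ S : Finset (Finset (V → ℝ)), Geo S ∧ CC S ∧ Subd S {∅, {v}}

/-- PIECE COL: induction on the collapses. -/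
def S_COL : Prop := ∀ (V : Type) [Fintype V] [DecidableEq V] (X : Finset (Finset V)),
  IsCpx X → Collapsible X → ∃ S : Finset (Finset (V → ℝ)), Geo S ∧ CC S ∧ Subd S X

/-- PIECE REA: from coefficient form to `IsRealization`. -/
def S_REA : Prop := ∀ (W E : Type) [DecidableEq E] [AddCommGroup E] [Module ℝ E]
  (Y : Finset (Finset W)) (q : W → E) (S : Finset (Finset E)), Function.Injective q → Geo S →
  (∀ t ∈ Y, t.image q ∈ S) → IsRealization Y q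

/-- PIECE TRA: passage to an abstract complex on `Fin n`. -/
def S_TRA : Prop := ∀ (V : Type) [Fintype V] [DecidableEq V] (X : Finset (Finset V))
  (S : Finset (Finset (V → ℝ))), Geo S → CC S → Subd S X →
  ∃ (n : ℕ) (Y : Finset (Finset (Fin n))), (∀ i, {i} ∈ Y) ∧ IsCpx Y ∧ CC Y ∧ IsSubdivision Y X

end Pool.Agent.K6.H24.CU
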